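import Mathlib

/-!
# A quartic del Pezzo fibration over the projective line

The threefold `X` is a hypersurface in a smooth projective toric variety of dimension four, and it
is described in the homogeneous (Cox) coordinates of this toric variety. The toric variety is the
blow-up of a `ℙ²`-bundle over `ℙ¹ × ℙ¹`, with coordinates `(t' : u')`, `(b0' : b1')` and
`(a0' : a1' : w)`, in the disjoint curves `t' = b0' = a1' = 0` and `u' = b1' = a0' = 0`, with
exceptional divisors `e = 0` and `g = 0`. So `t' = t e`, `b0' = b0 e`, `a1' = a1 e` and `u' = u g`,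
`b1' = b1 g`, `a0' = a0 g`, and the hypersurface is the strict transform of
`b0' (b0' + b1') a0' ^ 2 + b1' (b0' - 3 b1') a1' ^ 2 = t' u' w ^ 2`.
-/

set_option autoImplicit false

namespace Pool.Agent.Y198.DP

open MvPolynomial

/-- The Zariski topology on the affine space `ℂ ^ ι`. -/
@[reducible] noncomputable def zariski (ι : Type) : TopologicalSpace (ι → ℂ) :=
  TopologicalSpace.induced (pointToPoint (k := ℂ) (K := ℂ)) inferInstance

/-- The nine homogeneous coordinates of the toric variety. -/
inductive Co | t | u | b0 | b1 | a0 | a1 | w | e | g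
  deriving DecidableEq

open Co

/-- The class in `Pic = ℤ ^ 5` of the divisor where a coordinate vanishes. The basis of `Pic` is:
`0`: the fibre of `(t' : u')`, `1`: the pull-back of `O(1)` by `(b0' : b1')`, `2`: the
tautological class (the class of `a0' = 0`), `3`: the exceptional divisor `e = 0`, `4`: the
exceptional divisor `g = 0`. -/
def cls : Co → Fin 5 → ℤ
  | t => ![1, 0, 0, -1, 0]
  | u => ![1, 0, 0, 0, -1]
  | b0 => ![0, 1, 0, -1, 0]
  | b1 => ![0, 1, 0, 0, -1]
  | a0 => ![0, 0, 1, 0, -1]
  | a1 => ![0, 0, 1, -1, 0]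
  | w => ![-1, 1, 1, 0, 0]
  | e => ![0, 0, 0, 1, 0]
  | g => ![0, 0, 0, 0, 1]

/-- The equation of the threefold `X`. -/
noncomputable def eqn : MvPolynomial Co ℂ :=
  (X b0 * X e + X b1 * X g) * X b0 * X g * X a0 ^ 2
    + (X b0 * X e - 3 * (X b1 * X g)) * X b1 * X e * X a1 ^ 2 - X t * X u * X w ^ 2

/-- The homogeneous coordinates of the points of the toric variety: the complement of the zero set
of the irrelevant ideal. -/
def ambient : Set (Co → ℂ) :=
  {x | ¬(x t = 0 ∧ x b0 = 0 ∧ x a1 = 0) ∧ ¬(x u = 0 ∧ x b1 = 0 ∧ x a0 = 0) ∧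
    ¬(x t * x e = 0 ∧ x u * x g = 0) ∧ ¬(x b0 * x e = 0 ∧ x b1 * x g = 0) ∧
    ¬(x a0 * x g = 0 ∧ x a1 * x e = 0 ∧ x w = 0)}

/-- The homogeneous coordinates of the points of `X`. -/
def coneX : Set (Co → ℂ) := {x | x ∈ ambient ∧ eval x eqn = 0}

/-- The character of the torus `(ℂ ^ *) ^ 5` with weight `D`. -/
noncomputable def chi (τ : Fin 5 → ℂˣ) (D : Fin 5 → ℤ) : ℂˣ := ∏ j, τ j ^ D j

/-- Homogeneous coordinates of the same point of the toric variety differ by an element of the
torus `(ℂ ^ *) ^ 5`. -/
def SamePoint (x y : Co → ℂ) : Prop := ∃ τ : Fin 5 → ℂˣ, ∀ i, y i = chi τ (cls i) * x i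

/-- The intersection number of a curve class `α` and a divisor class `D`. The curve classes (the
elements of the dual of `Pic`) are given by their intersection numbers with the basis of `Pic`. -/
def pair {R : Type} [CommRing R] (α : Fin 5 → R) (D : Fin 5 → ℤ) : R := ∑ j, (D j : R) * α j

/-- The nef cone of curves of `X`: the classes with nonnegative intersection number with all
effective divisors, that is, with all zero sets of homogeneous elements (not vanishing
identically on `X`) of the coordinate ring. -/
def nefCone : Set (Fin 5 → ℝ) :=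
  {γ | ∀ (D : Fin 5 → ℤ) (h : MvPolynomial Co ℂ), IsWeightedHomogeneous cls h D →
    (∃ x ∈ coneX, eval x h ≠ 0) → 0 ≤ pair γ D}

/-- The affine space `N_λ` of the classes with intersection profile `λ = (e, g)`: they have
intersection number one with the fibres of `π = (t e : u g)`, with the component `e = 0` of the
fibre over `(0 : 1)` and with the component `g = 0` of the fibre over `(1 : 0)`, and zero with the
other components `t = 0` and `u = 0` of these fibres. -/
def profileSpace : Set (Fin 5 → ℝ) :=
  {γ | pair γ ![1, 0, 0, 0, 0] = 1 ∧ pair γ (cls e) = 1 ∧ pair γ (cls t) = 0 ∧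
    pair γ (cls g) = 1 ∧ pair γ (cls u) = 0}

/-- The value at `(T, U)` of the binary form of degree `d` with coefficients those of `p`. -/
noncomputable def formVal (d : ℕ) (p : Polynomial ℂ) (T U : ℂ) : ℂ :=
  ∑ k ∈ Finset.range (d + 1), p.coeff k * T ^ k * U ^ (d - k)

/-- The values at `(T, U)` of nine binary forms, of the degrees prescribed by the class `α`. -/
noncomputable def val (α : Fin 5 → ℤ) (f : Co → Polynomial ℂ) (T U : ℂ) : Co → ℂ :=
  fun i => formVal (pair α (cls i)).toNat (f i) T U

/-- The nine binary forms with coefficients those of `f i`, of the degrees given by the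
intersection numbers of the class `α` with the divisors of the coordinates, define a section of
class `α` of `π = (t e : u g) : X → ℙ¹`. -/
structure IsSection (α : Fin 5 → ℤ) (f : Co → Polynomial ℂ) : Prop where
  degree : ∀ i k, (f i).coeff k ≠ 0 → (k : ℤ) ≤ pair α (cls i)
  mem : ∀ T U : ℂ, T ≠ 0 ∨ U ≠ 0 → val α f T U ∈ coneX
  proj : ∀ T U : ℂ, val α f T U t * val α f T U e * U = val α f T U u * val α f T U g * T

/-- The homogeneous coordinates of sections of class `α`. -/
def SecRep (α : Fin 5 → ℤ) : Type := {f : Co → Polynomial ℂ // IsSection α f}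

/-- The Zariski topology in the coefficients. -/
noncomputable instance (α : Fin 5 → ℤ) : TopologicalSpace (SecRep α) :=
  (zariski (Co × ℕ)).induced fun f v => (f.1 v.1).coeff v.2

theorem chi_one (D : Fin 5 → ℤ) : chi 1 D = 1 := by simp [chi]

theorem chi_mul (τ σ : Fin 5 → ℂˣ) (D : Fin 5 → ℤ) : chi (τ * σ) D = chi τ D * chi σ D := by
  simp [chi, mul_zpow, Finset.prod_mul_distrib]

/-- The homogeneous coordinates of a section are unique up to the torus `(ℂ ^ *) ^ 5`. -/
def secSetoid (α : Fin 5 → ℤ) : Setoid (SecRep α) where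
  r f f' := ∃ τ : Fin 5 → ℂˣ, ∀ i, f'.1 i = Polynomial.C ((chi τ (cls i) : ℂˣ) : ℂ) * f.1 i
  iseqv :=
    { refl := fun f => ⟨1, fun i => by simp [chi_one]⟩
      symm := by
        rintro f f' ⟨τ, h⟩
        refine ⟨τ⁻¹, fun i => ?_⟩
        rw [h i, ← mul_assoc, ← Polynomial.C_mul, ← Units.val_mul, ← chi_mul, inv_mul_cancel,
          chi_one, Units.val_one, Polynomial.C_1, one_mul]
      trans := by
        rintro f f' f'' ⟨τ, h⟩ ⟨σ, h'⟩
        refine ⟨σ * τ, fun i => ?_⟩
        rw [h' i, h i, ← mul_assoc, ← Polynomial.C_mul, ← Units.val_mul, ← chi_mul] }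

/-- The space of the sections of class `α` of `π`: an open and closed subspace of `Sec(X / ℙ¹)`,
with its Zariski topology. -/
def Sec (α : Fin 5 → ℤ) : Type := Quotient (secSetoid α)

noncomputable instance (α : Fin 5 → ℤ) : TopologicalSpace (Sec α) :=
  inferInstanceAs (TopologicalSpace (Quotient (secSetoid α)))

/-- The section with homogeneous coordinates `f`. -/
def mkSec {α : Fin 5 → ℤ} (f : SecRep α) : Sec α := Quotient.mk (secSetoid α) f

/-- The family `M` of sections is dominant: the union of its sections is dense in `X`. (The set on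
the right consists of all homogeneous coordinates of all points of the sections in `M`.) -/
def IsDominant {α : Fin 5 → ℤ} (M : Set (Sec α)) : Prop :=
  coneX ⊆ @closure _ (zariski Co)
    {x | ∃ f : SecRep α, mkSec f ∈ M ∧ ∃ T U : ℂ, (T ≠ 0 ∨ U ≠ 0) ∧ x = val α f.1 T U}

/-- The number of dominant families of sections of class `α`. A family of sections is an
irreducible component of the space of sections. -/
noncomputable def numDominant (α : Fin 5 → ℤ) : ℕ∞ :=
  Set.encard {M : Set (Sec α) | M ∈ irreducibleComponents (Sec α) ∧ IsDominant M}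

end Pool.Agent.Y198.DP
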