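import Mathlib
import Pool.Agent.Y198.DP.Defs

set_option autoImplicit false

namespace Pool.Agent.Y198.DP

open MvPolynomial

theorem mem_ptp {ι : Type} (x : ι → ℂ) (P : MvPolynomial ι ℂ) :
    P ∈ (pointToPoint (k := ℂ) (K := ℂ) x : PrimeSpectrum (MvPolynomial ι ℂ)).asIdeal ↔
      eval x P = 0 := by
  change P ∈ MvPolynomial.vanishingIdeal ℂ ({x} : Set (ι → ℂ)) ↔ _
  rw [MvPolynomial.mem_vanishingIdeal_singleton_iff, MvPolynomial.aeval_eq_eval]

theorem zar_closed {ι : Type} (P : MvPolynomial ι ℂ) :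
    @IsClosed _ (zariski ι) {x : ι → ℂ | eval x P = 0} := by
  let _ := zariski ι
  refine ⟨?_⟩
  refine ⟨(PrimeSpectrum.zeroLocus {P})ᶜ, (PrimeSpectrum.isClosed_zeroLocus _).isOpen_compl, ?_⟩
  ext x
  simp only [Set.mem_preimage, Set.mem_compl_iff, PrimeSpectrum.mem_zeroLocus,
    Set.singleton_subset_iff, SetLike.mem_coe, Set.mem_ofPred_eq]
  rw [mem_ptp]

theorem zar_mem_closure {ι : Type} {S : Set (ι → ℂ)} {x : ι → ℂ}
    (h : ∀ P : MvPolynomial ι ℂ, (∀ y ∈ S, eval y P = 0) → eval x P = 0) :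
    x ∈ @closure _ (zariski ι) S := by
  let _ := zariski ι
  rw [mem_closure_iff]
  rintro _ ⟨O, hO, rfl⟩ hx
  rw [PrimeSpectrum.isOpen_iff] at hO
  obtain ⟨s, hs⟩ := hO
  have hmem : ∀ y : ι → ℂ, (y ∈ MvPolynomial.pointToPoint (k := ℂ) (K := ℂ) ⁻¹' O ↔
      ∃ P ∈ s, eval y P ≠ 0) := by
    intro y
    have h1 : y ∈ MvPolynomial.pointToPoint (k := ℂ) (K := ℂ) ⁻¹' O ↔
        ¬ (MvPolynomial.pointToPoint y ∈ Oᶜ) := by simp
    rw [h1, hs, PrimeSpectrum.mem_zeroLocus, Set.not_subset]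
    constructor
    · rintro ⟨P, hP, hP'⟩
      exact ⟨P, hP, fun h => hP' ((mem_ptp y P).2 h)⟩
    · rintro ⟨P, hP, hP'⟩
      exact ⟨P, hP, fun h => hP' ((mem_ptp y P).1 h)⟩
  obtain ⟨P, hP, hPx⟩ := (hmem x).1 hx
  by_contra hcon
  apply hPx
  apply h P
  intro y hy
  by_contra hy0
  exact hcon ⟨y, (hmem y).2 ⟨P, hP, hy0⟩, hy⟩

theorem zar_cont {ι κ : Type} (φ : ι → MvPolynomial κ ℂ) :
    @Continuous _ _ (zariski κ) (zariski ι) (fun v i => eval v (φ i)) := by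
  let _ := zariski κ
  let _ := zariski ι
  refine continuous_induced_rng.2 ?_
  have h : (pointToPoint (k := ℂ) (K := ℂ) ∘ fun (v : κ → ℂ) (i : ι) => eval v (φ i)) =
      (PrimeSpectrum.comap (aeval φ : MvPolynomial ι ℂ →ₐ[ℂ] MvPolynomial κ ℂ).toRingHom) ∘
        (pointToPoint (k := ℂ) (K := ℂ)) := by
    funext v
    apply PrimeSpectrum.ext
    ext P
    simp only [Function.comp_apply]
    rw [mem_ptp, PrimeSpectrum.comap_asIdeal, Ideal.mem_comap, mem_ptp]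
    have : eval (fun i => eval v (φ i)) P = eval v (aeval φ P) := by
      have key : ((aeval v : MvPolynomial κ ℂ →ₐ[ℂ] ℂ).comp (aeval φ)) =
          aeval (fun i => eval v (φ i)) := by
        apply MvPolynomial.algHom_ext
        intro i
        rw [AlgHom.comp_apply, aeval_X, aeval_X]
        exact DFunLike.congr_fun (MvPolynomial.coe_aeval_eq_eval v) _
      have h3 := DFunLike.congr_fun key P
      have e1 := DFunLike.congr_fun (MvPolynomial.coe_aeval_eq_eval v) (aeval φ P)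
      have e2 := DFunLike.congr_fun (MvPolynomial.coe_aeval_eq_eval (fun i => eval v (φ i))) P
      rw [← e1, ← e2]
      exact h3.symm
    rw [this]
    rfl
  rw [h]
  exact (PrimeSpectrum.continuous_comap _).comp continuous_induced_dom

theorem irr_of {ι : Type} {S : Set (ι → ℂ)} (hne : S.Nonempty)
    (h : ∀ P Q : MvPolynomial ι ℂ, (∀ x ∈ S, eval x P = 0 ∨ eval x Q = 0) →
      (∀ x ∈ S, eval x P = 0) ∨ (∀ x ∈ S, eval x Q = 0)) : @IsIrreducible _ (zariski ι) S := by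
  let _ := zariski ι
  refine ⟨hne, ?_⟩
  rintro u v ⟨U, hU, rfl⟩ ⟨V, hV, rfl⟩ ⟨a, haS, haU⟩ ⟨c, hcS, hcV⟩
  rw [PrimeSpectrum.isOpen_iff] at hU hV
  obtain ⟨s, hs⟩ := hU
  obtain ⟨t, ht⟩ := hV
  have hmem : ∀ (W : Set (PrimeSpectrum (MvPolynomial ι ℂ))) (s : Set (MvPolynomial ι ℂ)),
      Wᶜ = PrimeSpectrum.zeroLocus s → ∀ x : ι → ℂ,
      (x ∈ MvPolynomial.pointToPoint (k := ℂ) (K := ℂ) ⁻¹' W ↔ ∃ P ∈ s, eval x P ≠ 0) := by
    intro W s hW x
    have h1 : x ∈ MvPolynomial.pointToPoint (k := ℂ) (K := ℂ) ⁻¹' W ↔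
        ¬ (MvPolynomial.pointToPoint x ∈ Wᶜ) := by simp
    rw [h1, hW, PrimeSpectrum.mem_zeroLocus, Set.not_subset]
    constructor
    · rintro ⟨P, hP, hP'⟩
      exact ⟨P, hP, fun h => hP' ((mem_ptp x P).2 h)⟩
    · rintro ⟨P, hP, hP'⟩
      exact ⟨P, hP, fun h => hP' ((mem_ptp x P).1 h)⟩
  obtain ⟨P, hP, hPa⟩ := (hmem U s hs a).1 haU
  obtain ⟨Q, hQ, hQc⟩ := (hmem V t ht c).1 hcV
  by_contra hcon
  have hall : ∀ x ∈ S, eval x P = 0 ∨ eval x Q = 0 := by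
    intro x hx
    by_contra hxx
    push Not at hxx
    exact hcon ⟨x, hx, (hmem U s hs x).2 ⟨P, hP, hxx.1⟩, (hmem V t ht x).2 ⟨Q, hQ, hxx.2⟩⟩
  rcases h P Q hall with h1 | h1
  · exact hPa (h1 a haS)
  · exact hQc (h1 c hcS)

/-- A polynomial vanishing where another nonzero polynomial does not vanish is zero. -/
theorem zero_of_open {ι : Type} {P c : MvPolynomial ι ℂ} (hc : c ≠ 0)
    (h : ∀ x, eval x c ≠ 0 → eval x P = 0) : P = 0 := by
  have h1 : c * P = 0 := by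
    apply MvPolynomial.funext
    intro x
    rw [map_mul, map_zero]
    by_cases hx : eval x c = 0
    · rw [hx, zero_mul]
    · rw [h x hx, mul_zero]
  exact (mul_eq_zero.1 h1).resolve_left hc

theorem irr_open {ι : Type} {c : MvPolynomial ι ℂ} (hc : ∃ x, eval x c ≠ 0) :
    @IsIrreducible _ (zariski ι) {x : ι → ℂ | eval x c ≠ 0} := by
  have hc0 : c ≠ 0 := by
    rintro rfl
    obtain ⟨x, hx⟩ := hc
    exact hx (map_zero _)
  refine irr_of hc ?_
  intro P Q h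
  have h1 : P * Q = 0 := by
    refine zero_of_open hc0 ?_
    intro x hx
    rw [map_mul]
    rcases h x hx with h2 | h2
    · rw [h2, zero_mul]
    · rw [h2, mul_zero]
  rcases mul_eq_zero.1 h1 with h2 | h2
  · left
    intro x _
    rw [h2, map_zero]
  · right
    intro x _
    rw [h2, map_zero]

end Pool.Agent.Y198.DP
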