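import Mathlib
import Pool.Agent.Y198.DP.Zar

set_option autoImplicit false

namespace Pool.Agent.Y198.DP

open MvPolynomial Co

/-- the part of the equation without `u` -/
noncomputable def eqQ : MvPolynomial Co ℂ :=
  (X b0 * X e + X b1 * X g) * X b0 * X g * X a0 ^ 2
    + (X b0 * X e - 3 * (X b1 * X g)) * X b1 * X e * X a1 ^ 2

/-- the coefficient of `u` -/
noncomputable def eqS : MvPolynomial Co ℂ := X t * X w ^ 2

theorem eqn_eq : eqn = eqQ - eqS * X u := by
  rw [eqn, eqQ, eqS]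
  ring

theorem eval_eqn (x : Co → ℂ) : eval x eqn = (x b0 * x e + x b1 * x g) * x b0 * x g * x a0 ^ 2
    + (x b0 * x e - 3 * (x b1 * x g)) * x b1 * x e * x a1 ^ 2 - x t * x u * x w ^ 2 := by
  simp [eqn]

theorem eval_eqQ (x : Co → ℂ) : eval x eqQ = (x b0 * x e + x b1 * x g) * x b0 * x g * x a0 ^ 2
    + (x b0 * x e - 3 * (x b1 * x g)) * x b1 * x e * x a1 ^ 2 := by
  simp [eqQ]

theorem eval_eqS (x : Co → ℂ) : eval x eqS = x t * x w ^ 2 := by
  simp [eqS]

/-- a polynomial does not involve the variable `u` -/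
def NoU (P : MvPolynomial Co ℂ) : Prop :=
  ∀ (x : Co → ℂ) (c : ℂ), eval (Function.update x u c) P = eval x P

theorem noU_X {i : Co} (hi : i ≠ u) : NoU (X i) := by
  intro x c
  rw [eval_X, eval_X, Function.update_of_ne hi]

theorem noU_C (a : ℂ) : NoU (C a) := by
  intro x c
  rw [eval_C, eval_C]

theorem noU_add {P R : MvPolynomial Co ℂ} (hP : NoU P) (hR : NoU R) : NoU (P + R) := by
  intro x c
  rw [map_add, map_add, hP, hR]

theorem noU_mul {P R : MvPolynomial Co ℂ} (hP : NoU P) (hR : NoU R) : NoU (P * R) := by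
  intro x c
  rw [map_mul, map_mul, hP, hR]

theorem noU_pow {P : MvPolynomial Co ℂ} (hP : NoU P) (n : ℕ) : NoU (P ^ n) := by
  intro x c
  rw [map_pow, map_pow, hP]

theorem noU_S : NoU eqS := noU_mul (noU_X (by decide)) (noU_pow (noU_X (by decide)) 2)

theorem noU_Q : NoU eqQ := by
  intro x c
  rw [eval_eqQ, eval_eqQ]
  simp [Function.update]

theorem red (P : MvPolynomial Co ℂ) :
    ∃ (N : ℕ) (P' : MvPolynomial Co ℂ), NoU P' ∧ eqn ∣ eqS ^ N * P - P' := by
  induction P using MvPolynomial.induction_on with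
  | C a => exact ⟨0, C a, noU_C a, by simp⟩
  | add P R hP hR =>
    obtain ⟨N, P', h1, k, hk⟩ := hP
    obtain ⟨M, R', h2, l, hl⟩ := hR
    refine ⟨N + M, eqS ^ M * P' + eqS ^ N * R', noU_add (noU_mul (noU_pow noU_S _) h1)
      (noU_mul (noU_pow noU_S _) h2), ?_⟩
    refine ⟨eqS ^ M * k + eqS ^ N * l, ?_⟩
    rw [pow_add]
    linear_combination eqS ^ M * hk + eqS ^ N * hl
  | mul_X P i hP =>
    obtain ⟨N, P', h1, k, hk⟩ := hP
    by_cases hi : i = u
    · subst hi
      refine ⟨N + 1, P' * eqQ, noU_mul h1 noU_Q, ?_⟩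
      refine ⟨k * eqQ - eqS ^ N * P, ?_⟩
      rw [pow_succ]
      have h2 := eqn_eq
      linear_combination eqQ * hk + eqS ^ N * P * h2
    · refine ⟨N, P' * X i, noU_mul h1 (noU_X hi), k * X i, ?_⟩
      linear_combination X i * hk

theorem not_dvd_of_eval {i : Co} {P : MvPolynomial Co ℂ} (x : Co → ℂ) (hx : x i = 0)
    (hP : eval x P ≠ 0) : ¬ X i ∣ P := by
  rintro ⟨k, rfl⟩
  apply hP
  rw [map_mul, eval_X, hx, zero_mul]

/-- a test point -/
def testPt : Co → ℂ
  | t => 0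
  | w => 0
  | b0 => 2
  | _ => 1

/-- a test point -/
def testPt' : Co → ℂ
  | b0 => 2
  | _ => 1

theorem X_t_not_dvd : ¬ (X t : MvPolynomial Co ℂ) ∣ eqn := by
  apply not_dvd_of_eval testPt
  · simp [testPt]
  · rw [eval_eqn]
    simp only [testPt]
    norm_num

theorem X_w_not_dvd : ¬ (X w : MvPolynomial Co ℂ) ∣ eqn := by
  apply not_dvd_of_eval testPt
  · simp [testPt]
  · rw [eval_eqn]
    simp only [testPt]
    norm_num

theorem sat {P : MvPolynomial Co ℂ} {N : ℕ} (h : eqn ∣ eqS ^ N * P) : eqn ∣ P := by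
  obtain ⟨k, hk⟩ := h
  have ht : (X t : MvPolynomial Co ℂ) ^ N ∣ k := by
    apply MvPolynomial.X_prime.pow_dvd_of_dvd_mul_left N X_t_not_dvd
    rw [← hk, eqS, mul_pow, mul_assoc]
    exact dvd_mul_right _ _
  obtain ⟨k1, rfl⟩ := ht
  have h1 : (X w : MvPolynomial Co ℂ) ^ (2 * N) * P = eqn * k1 := by
    have h2 : (X t : MvPolynomial Co ℂ) ^ N ≠ 0 := pow_ne_zero _ (X_ne_zero _)
    apply mul_left_cancel₀ h2
    rw [eqS, mul_pow, ← pow_mul] at hk
    linear_combination hk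
  have hw : (X w : MvPolynomial Co ℂ) ^ (2 * N) ∣ k1 := by
    apply MvPolynomial.X_prime.pow_dvd_of_dvd_mul_left (2 * N) X_w_not_dvd
    rw [← h1]
    exact dvd_mul_right _ _
  obtain ⟨k2, rfl⟩ := hw
  refine ⟨k2, ?_⟩
  have h2 : (X w : MvPolynomial Co ℂ) ^ (2 * N) ≠ 0 := pow_ne_zero _ (X_ne_zero _)
  apply mul_left_cancel₀ h2
  linear_combination h1

/-- the generic points of the cone used below -/
def Gen (x : Co → ℂ) : Prop :=
  (∀ i, x i ≠ 0) ∧ x b0 * x e - x b1 * x g ≠ 0 ∧ eval x eqn = 0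

theorem Gen.mem {x : Co → ℂ} (h : Gen x) : x ∈ coneX := by
  obtain ⟨h1, -, h3⟩ := h
  refine ⟨⟨fun h => h1 t h.1, fun h => h1 u h.1, fun h => ?_, fun h => ?_, fun h => h1 w h.2.2⟩, h3⟩
  · exact mul_ne_zero (h1 t) (h1 e) h.1
  · exact mul_ne_zero (h1 b0) (h1 e) h.1

/-- the open condition in the coordinates other than `u` -/
noncomputable def eqG : MvPolynomial Co ℂ :=
  X t * X b0 * X b1 * X a0 * X a1 * X w * X e * X g * (X b0 * X e - X b1 * X g) * eqQ

theorem eqG_ne : eqG ≠ 0 := by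
  intro h
  have h1 := congrArg (eval testPt') h
  rw [eqG] at h1
  simp only [map_mul, map_sub, eval_X, eval_eqQ, map_zero, testPt'] at h1
  norm_num at h1

theorem gen_of {x : Co → ℂ} (hx : eval x eqG ≠ 0) :
    Gen (Function.update x u (eval x eqQ / eval x eqS)) := by
  rw [eqG] at hx
  simp only [map_mul, map_sub, eval_X, mul_ne_zero_iff] at hx
  obtain ⟨⟨⟨⟨⟨⟨⟨⟨⟨h1, h2⟩, h3⟩, h4⟩, h5⟩, h6⟩, h7⟩, h8⟩, h9⟩, h10⟩ := hx
  have hS : eval x eqS ≠ 0 := by
    rw [eval_eqS]
    exact mul_ne_zero h1 (pow_ne_zero _ h6)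
  refine ⟨?_, ?_, ?_⟩
  · intro i
    cases i
    case u =>
      rw [Function.update_self]
      exact div_ne_zero h10 hS
    all_goals
      rw [Function.update_of_ne (by decide)]
      assumption
  · rw [Function.update_of_ne (by decide), Function.update_of_ne (by decide),
      Function.update_of_ne (by decide), Function.update_of_ne (by decide)]
    exact h9
  · rw [eqn_eq, map_sub, map_mul, noU_Q, noU_S, eval_X, Function.update_self]
    rw [mul_div_cancel₀ _ hS, sub_self]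

theorem red_zero {P P' : MvPolynomial Co ℂ} {N : ℕ} (h1 : NoU P') (h2 : eqn ∣ eqS ^ N * P - P')
    {x : Co → ℂ} {c : ℂ} (hx : eval (Function.update x u c) eqn = 0) :
    eval x P' = eval x eqS ^ N * eval (Function.update x u c) P := by
  obtain ⟨k, hk⟩ := h2
  have h3 := congrArg (eval (Function.update x u c)) hk
  rw [map_sub, map_mul, map_mul, hx, zero_mul, h1, map_pow, noU_S] at h3
  linear_combination -h3

theorem prime_gen (P R : MvPolynomial Co ℂ) (h : ∀ x, Gen x → eval x P = 0 ∨ eval x R = 0) :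
    eqn ∣ P ∨ eqn ∣ R := by
  obtain ⟨N, P', hP1, hP2⟩ := red P
  obtain ⟨M, R', hR1, hR2⟩ := red R
  have h0 : P' * R' = 0 := by
    apply zero_of_open eqG_ne
    intro x hx
    have hg := gen_of hx
    rw [map_mul, red_zero hP1 hP2 hg.2.2, red_zero hR1 hR2 hg.2.2]
    rcases h _ hg with h1 | h1
    · rw [h1]; ring
    · rw [h1]; ring
  rcases mul_eq_zero.1 h0 with h1 | h1
  · left
    rw [h1, sub_zero] at hP2
    exact sat hP2
  · right
    rw [h1, sub_zero] at hR2
    exact sat hR2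

theorem gen_dvd (P : MvPolynomial Co ℂ) (h : ∀ x, Gen x → eval x P = 0) : eqn ∣ P := by
  rcases prime_gen P P (fun x hx => Or.inl (h x hx)) with h1 | h1 <;> exact h1

theorem eval_of_dvd {P : MvPolynomial Co ℂ} (h : eqn ∣ P) {x : Co → ℂ} (hx : x ∈ coneX) :
    eval x P = 0 := by
  obtain ⟨k, rfl⟩ := h
  rw [map_mul, hx.2, zero_mul]

theorem exists_gen : ∃ x, Gen x := by
  obtain ⟨x, hx⟩ : ∃ x, eval x eqG ≠ 0 := by
    by_contra hcon
    push Not at hcon
    exact eqG_ne (MvPolynomial.funext fun x => by rw [hcon x, map_zero])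
  exact ⟨_, gen_of hx⟩

/-- `X` is irreducible. -/
theorem irr_coneX : @IsIrreducible _ (zariski Co) coneX := by
  obtain ⟨x, hx⟩ := exists_gen
  apply irr_of ⟨x, hx.mem⟩
  intro P R h
  rcases prime_gen P R (fun x hx => h x hx.mem) with h1 | h1
  · exact Or.inl fun x hx => eval_of_dvd h1 hx
  · exact Or.inr fun x hx => eval_of_dvd h1 hx

/-- To prove density it is enough to consider generic points. -/
theorem dense_of {S : Set (Co → ℂ)} (h : ∀ P : MvPolynomial Co ℂ, (∀ y ∈ S, eval y P = 0) →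
    ∀ x, Gen x → eval x P = 0) : coneX ⊆ @closure _ (zariski Co) S := by
  intro x hx
  apply zar_mem_closure
  intro P hP
  exact eval_of_dvd (gen_dvd P (h P hP)) hx

end Pool.Agent.Y198.DP
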