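import Mathlib
import Pool.Agent.Y198.DP.Defs

set_option autoImplicit false

namespace Pool.Agent.Y198.DP

open Polynomial

variable (d d1 d2 : ℕ) (p q : ℂ[X]) (c T U : ℂ)

theorem fv_add : formVal d (p + q) T U = formVal d p T U + formVal d q T U := by
  simp [formVal, add_mul, Finset.sum_add_distrib]

theorem fv_neg : formVal d (-p) T U = -formVal d p T U := by
  simp [formVal, Finset.sum_neg_distrib]

theorem fv_sub : formVal d (p - q) T U = formVal d p T U - formVal d q T U := by
  rw [sub_eq_add_neg, fv_add, fv_neg, sub_eq_add_neg]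

theorem fv_C_mul : formVal d (C c * p) T U = c * formVal d p T U := by
  simp only [formVal, coeff_C_mul, Finset.mul_sum]
  exact Finset.sum_congr rfl fun k _ => by ring

theorem fv_X_pow {k : ℕ} (hk : k ≤ d) : formVal d (X ^ k) T U = T ^ k * U ^ (d - k) := by
  rw [formVal, Finset.sum_eq_single k]
  · simp
  · intro l _ hl
    rw [coeff_X_pow, if_neg hl, zero_mul, zero_mul]
  · intro hk'
    exact absurd (Finset.mem_range.2 (by omega)) hk'

theorem fv_one : formVal d 1 T U = U ^ d := by
  have := fv_X_pow d T U (Nat.zero_le d)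
  simpa using this

theorem fv_C : formVal d (C c) T U = c * U ^ d := by
  have := fv_C_mul d 1 c T U
  rw [mul_one] at this
  rw [this, fv_one]

theorem fv_eval (hp : p.natDegree ≤ d) : formVal d p T 1 = p.eval T := by
  rw [Polynomial.eval_eq_sum_range' (Nat.lt_succ_of_le hp)]
  simp [formVal]

end Pool.Agent.Y198.DP
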