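import Mathlib
import Pool.Agent.Y198.DP.Red
import Pool.Agent.Y198.DP.Fv

set_option autoImplicit false

namespace Pool.Agent.Y198.DP

open MvPolynomial Co

/-- the weights of the coordinates -/
noncomputable def wt (τ : Fin 5 → ℂˣ) (i : Co) : ℂ := ((chi τ (cls i) : ℂˣ) : ℂ)

theorem wt_ne (τ : Fin 5 → ℂˣ) (i : Co) : wt τ i ≠ 0 := Units.ne_zero _

theorem wt_eq (τ : Fin 5 → ℂˣ) (i : Co) : wt τ i =
    match i with
    | t => (τ 0 : ℂ) * (τ 3 : ℂ)⁻¹
    | u => (τ 0 : ℂ) * (τ 4 : ℂ)⁻¹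
    | b0 => (τ 1 : ℂ) * (τ 3 : ℂ)⁻¹
    | b1 => (τ 1 : ℂ) * (τ 4 : ℂ)⁻¹
    | a0 => (τ 2 : ℂ) * (τ 4 : ℂ)⁻¹
    | a1 => (τ 2 : ℂ) * (τ 3 : ℂ)⁻¹
    | w => (τ 0 : ℂ)⁻¹ * (τ 1 : ℂ) * (τ 2 : ℂ)
    | e => (τ 3 : ℂ)
    | g => (τ 4 : ℂ) := by
  cases i <;> simp [wt, chi, cls, Fin.prod_univ_five]

theorem wt_te (τ : Fin 5 → ℂˣ) : wt τ t * wt τ e = wt τ u * wt τ g := by
  simp [wt_eq]

theorem wt_be (τ : Fin 5 → ℂˣ) : wt τ b0 * wt τ e = wt τ b1 * wt τ g := by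
  simp [wt_eq]

theorem wt_ba (τ : Fin 5 → ℂˣ) : wt τ b0 * wt τ a0 = wt τ b1 * wt τ a1 := by
  simp only [wt_eq]
  ring

theorem wt_eqn (τ : Fin 5 → ℂˣ) (x : Co → ℂ) :
    eval (fun i => wt τ i * x i) eqn = wt τ t * wt τ u * wt τ w ^ 2 * eval x eqn := by
  rw [eval_eqn, eval_eqn]
  simp only [wt_eq]
  have h0 := (τ 0).ne_zero
  have h3 := (τ 3).ne_zero
  have h4 := (τ 4).ne_zero
  field_simp

theorem coneX_wt (τ : Fin 5 → ℂˣ) {x : Co → ℂ} (hx : x ∈ coneX) :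
    (fun i => wt τ i * x i) ∈ coneX := by
  obtain ⟨⟨h1, h2, h3, h4, h5⟩, h6⟩ := hx
  refine ⟨⟨?_, ?_, ?_, ?_, ?_⟩, ?_⟩
  · simpa [wt_ne] using h1
  · simpa [wt_ne] using h2
  · simpa [wt_ne] using h3
  · simpa [wt_ne] using h4
  · simpa [wt_ne] using h5
  · rw [wt_eqn, h6, mul_zero]

theorem fv_wt (α : Fin 5 → ℤ) (f : Co → Polynomial ℂ) (s : Co → ℂ) (T U : ℂ) :
    val α (fun i => Polynomial.C (s i) * f i) T U = fun i => s i * val α f T U i := by
  funext i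
  simp only [val]
  rw [fv_C_mul]

theorem IsSection.smul {α : Fin 5 → ℤ} {f : Co → Polynomial ℂ} (hf : IsSection α f)
    (τ : Fin 5 → ℂˣ) : IsSection α (fun i => Polynomial.C (wt τ i) * f i) where
  degree := by
    intro i k hk
    apply hf.degree i k
    rw [Polynomial.coeff_C_mul] at hk
    exact right_ne_zero_of_mul hk
  mem := by
    intro T U h
    rw [fv_wt]
    exact coneX_wt τ (hf.mem T U h)
  proj := by
    intro T U
    simp only [fv_wt]
    have h1 := hf.proj T U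
    have h2 := wt_te τ
    calc wt τ t * val α f T U t * (wt τ e * val α f T U e) * U
        = (wt τ t * wt τ e) * (val α f T U t * val α f T U e * U) := by ring
      _ = (wt τ u * wt τ g) * (val α f T U u * val α f T U g * T) := by rw [h1, h2]
      _ = _ := by ring

/-- the sign change of `a1` -/
noncomputable def sg (i : Co) : ℂ := if i = a1 then -1 else 1

theorem sg_sq (i : Co) : sg i * sg i = 1 := by
  rw [sg]
  split_ifs <;> norm_num

theorem sg_ne (i : Co) : sg i ≠ 0 := by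
  rw [sg]
  split_ifs <;> norm_num

theorem sg_eqn (x : Co → ℂ) : eval (fun i => sg i * x i) eqn = eval x eqn := by
  rw [eval_eqn, eval_eqn]
  simp [sg]

theorem coneX_sg {x : Co → ℂ} (hx : x ∈ coneX) : (fun i => sg i * x i) ∈ coneX := by
  obtain ⟨⟨h1, h2, h3, h4, h5⟩, h6⟩ := hx
  refine ⟨⟨?_, ?_, ?_, ?_, ?_⟩, ?_⟩
  · simpa [sg_ne] using h1
  · simpa [sg_ne] using h2
  · simpa [sg_ne] using h3
  · simpa [sg_ne] using h4
  · simpa [sg_ne] using h5
  · rw [sg_eqn, h6]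

theorem IsSection.sg {α : Fin 5 → ℤ} {f : Co → Polynomial ℂ} (hf : IsSection α f) :
    IsSection α (fun i => Polynomial.C (sg i) * f i) where
  degree := by
    intro i k hk
    apply hf.degree i k
    rw [Polynomial.coeff_C_mul] at hk
    exact right_ne_zero_of_mul hk
  mem := by
    intro T U h
    rw [fv_wt]
    exact coneX_sg (hf.mem T U h)
  proj := by
    intro T U
    simp only [fv_wt]
    have h1 := hf.proj T U
    simpa [DP.sg] using h1

end Pool.Agent.Y198.DP
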