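import Mathlib
import Pool.Agent.Y198.DP.Red
import Pool.Agent.Y198.DP.Tor

/-!
# The geometry of `X`: smoothness, the fibres, a rational chart
-/

set_option autoImplicit false

namespace Pool.Agent.Y198.DP

open MvPolynomial Co

/-- The homogeneous coordinates of the points of the fibre of `π = (t e : u g)` over `(p : q)`. -/
def fibre (p q : ℂ) : Set (Co → ℂ) := {x | x ∈ coneX ∧ q * (x t * x e) = p * (x u * x g)}

/-- A map from the fibres of `π` to `ℙ ^ 4`, in homogeneous coordinates. -/
def toP4 (x : Co → ℂ) : Fin 5 → ℂ :=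
  ![x a0 * x g * (x b0 * x e), x a0 * x g * (x b1 * x g), x a1 * x e * (x b0 * x e),
    x a1 * x e * (x b1 * x g), x w * (x t * x e)]

/-- The quadric `z0 z3 = z1 z2`. -/
noncomputable def quad1 : MvPolynomial (Fin 5) ℂ := X 0 * X 3 - X 1 * X 2

/-- The quadric `z0 ^ 2 + z0 z1 + z2 z3 - 3 z3 ^ 2 = c z4 ^ 2`. -/
noncomputable def quad2 (c : ℂ) : MvPolynomial (Fin 5) ℂ :=
  X 0 ^ 2 + X 0 * X 1 + X 2 * X 3 - 3 * X 3 ^ 2 - C c * X 4 ^ 2

/-- The homogeneous coordinates of the points of the intersection in `ℙ ^ 4` of the quadrics. -/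
def surf (c : ℂ) : Set (Fin 5 → ℂ) := {z | z ≠ 0 ∧ eval z quad1 = 0 ∧ eval z (quad2 c) = 0}

/-- The gradient of a polynomial at a point. -/
noncomputable def grad (F : MvPolynomial (Fin 5) ℂ) (z : Fin 5 → ℂ) : Fin 5 → ℂ :=
  fun i => eval z (pderiv i F)

/-- The chart `ℂ ^ * × ℂ ^ 2 → X`. -/
noncomputable def chart (p : Fin 3 → ℂ) : Co → ℂ
  | t => p 0
  | u => ((p 1 + 1) * p 1 * p 2 ^ 2 + (p 1 - 3)) / p 0
  | b0 => p 1
  | a0 => p 2
  | _ => 1

theorem pderiv_three {ι : Type} (i : ι) : pderiv i (3 : MvPolynomial ι ℂ) = 0 := by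
  have h : (3 : MvPolynomial ι ℂ) = C 3 := (map_ofNat C 3).symm
  rw [h, pderiv_C]

theorem smooth {x : Co → ℂ} (hx : x ∈ coneX) : ∃ i, eval x (pderiv i eqn) ≠ 0 := by
  obtain ⟨⟨h1, h2, h3, h4, h5⟩, -⟩ := hx
  by_contra hcon
  push Not at hcon
  have dt := hcon t
  have du := hcon u
  have db0 := hcon b0
  have db1 := hcon b1
  have da0 := hcon a0
  have da1 := hcon a1
  simp only [eqn, Derivation.leibniz, map_add, map_sub, map_mul, pderiv_X, Pi.single_apply,
    smul_eq_mul, Derivation.leibniz_pow, eval_X, map_pow, reduceCtorEq, if_false, if_true,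
    map_zero, nsmul_eq_mul, mul_zero, mul_one, add_zero, zero_add, Nat.cast_ofNat, map_ofNat,
    pderiv_three] at dt du db0 db1 da0 da1
  by_cases hw : x w = 0
  · by_cases he : x e = 0
    · have h6 : x b1 * x g ≠ 0 := fun h => h4 ⟨by rw [he, mul_zero], h⟩
      have h7 : x a0 * x g ≠ 0 := fun h => h5 ⟨h, by rw [he, mul_zero], hw⟩
      rw [he] at db0
      have h8 := left_ne_zero_of_mul h7
      have h9 := right_ne_zero_of_mul h7
      apply mul_ne_zero (mul_ne_zero (pow_ne_zero 2 h8) h9) h6
      linear_combination db0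
    · by_cases hg : x g = 0
      · have h6 : x b0 * x e ≠ 0 := fun h => h4 ⟨h, by rw [hg, mul_zero]⟩
        have h7 : x a1 * x e ≠ 0 := fun h => h5 ⟨by rw [hg, mul_zero], h, hw⟩
        rw [hg] at db1
        have h8 := left_ne_zero_of_mul h7
        have h9 := right_ne_zero_of_mul h7
        apply mul_ne_zero (mul_ne_zero (pow_ne_zero 2 h8) h9) h6
        linear_combination db1
      · have k0 : x a0 = 0 ∨ (x b0 * x e + x b1 * x g) * x b0 = 0 := by
          by_cases h : x a0 = 0
          · exact Or.inl h
          · right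
            apply mul_left_cancel₀ (mul_ne_zero (mul_ne_zero two_ne_zero hg) h)
            linear_combination da0
        have k1 : x a1 = 0 ∨ (x b0 * x e - 3 * (x b1 * x g)) * x b1 = 0 := by
          by_cases h : x a1 = 0
          · exact Or.inl h
          · right
            apply mul_left_cancel₀ (mul_ne_zero (mul_ne_zero two_ne_zero he) h)
            linear_combination da1
        have k2 : x b1 = 0 → x b0 ≠ 0 := fun h h' => h4 ⟨by rw [h', zero_mul], by rw [h, zero_mul]⟩
        rcases k0 with k0 | k0
        · have ha1 : x a1 ≠ 0 := fun h => h5 ⟨by rw [k0, zero_mul], by rw [h, zero_mul], hw⟩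
          have k1' := k1.resolve_left ha1
          have k3 : x b0 * x e = 6 * (x b1 * x g) := by
            apply mul_left_cancel₀ (mul_ne_zero (pow_ne_zero 2 ha1) he)
            rw [k0] at db1
            linear_combination db1
          rw [k3] at k1'
          have k4 : x b1 = 0 := by
            by_contra h
            apply mul_ne_zero (mul_ne_zero three_ne_zero hg) (pow_ne_zero 2 h)
            linear_combination k1'
          rw [k4] at k3
          apply k2 k4
          apply mul_left_cancel₀ he
          linear_combination k3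
        · rcases k1 with k1 | k1
          · have ha0 : x a0 ≠ 0 := fun h => h5 ⟨by rw [h, zero_mul], by rw [k1, zero_mul], hw⟩
            have k3 : x b1 * x g = -2 * (x b0 * x e) := by
              apply mul_left_cancel₀ (mul_ne_zero (pow_ne_zero 2 ha0) hg)
              rw [k1] at db0
              linear_combination db0
            rw [k3] at k0
            have k4 : x b0 = 0 := by
              by_contra h
              apply mul_ne_zero he (pow_ne_zero 2 h)
              linear_combination -k0
            have k5 : x b1 = 0 := by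
              apply mul_left_cancel₀ hg
              rw [k4] at k3
              linear_combination k3
            exact k2 k5 k4
          · rcases mul_eq_zero.1 k0 with k3 | k3
            · have k4 : x b1 = 0 := by
                by_contra h
                apply mul_ne_zero (mul_ne_zero (by norm_num : (4 : ℂ) ≠ 0) hg) (pow_ne_zero 2 h)
                linear_combination x b1 * k3 - k1
              apply k2 k4
              rw [k4] at k3
              apply mul_left_cancel₀ he
              linear_combination k3
            · have k4 : x b1 = 0 := by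
                by_contra h
                apply mul_ne_zero (mul_ne_zero three_ne_zero hg) (pow_ne_zero 2 h)
                rw [k3] at k1
                linear_combination -k1
              exact k2 k4 k3
  · have h6 : x u = 0 := by
      apply mul_left_cancel₀ (pow_ne_zero 2 hw)
      linear_combination -dt
    have h7 : x t = 0 := by
      apply mul_left_cancel₀ (pow_ne_zero 2 hw)
      linear_combination -du
    exact h3 ⟨by rw [h7, zero_mul], by rw [h6, zero_mul]⟩

theorem eval_quad1 (z : Fin 5 → ℂ) : eval z quad1 = z 0 * z 3 - z 1 * z 2 := by simp [quad1]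

theorem eval_quad2 (c : ℂ) (z : Fin 5 → ℂ) : eval z (quad2 c) =
    z 0 ^ 2 + z 0 * z 1 + z 2 * z 3 - 3 * z 3 ^ 2 - c * z 4 ^ 2 := by simp [quad2]

theorem grad1 (z : Fin 5 → ℂ) : grad quad1 z = ![z 3, -z 2, -z 1, z 0, 0] := by
  funext i
  fin_cases i <;> simp [grad, quad1, pderiv_X]

theorem grad2 (c : ℂ) (z : Fin 5 → ℂ) : grad (quad2 c) z =
    ![2 * z 0 + z 1, z 0, z 3, z 2 - 6 * z 3, -2 * c * z 4] := by
  funext i
  fin_cases i <;>
    simp [grad, quad2, pderiv_X, pderiv_three, Derivation.leibniz_pow] <;> ring

/-- The intersection of the quadrics is smooth. -/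
theorem surf_smooth {c : ℂ} (hc : c ≠ 0) {z : Fin 5 → ℂ} (hz : z ∈ surf c) :
    LinearIndependent ℂ ![grad quad1 z, grad (quad2 c) z] := by
  obtain ⟨h0, h1, h2⟩ := hz
  rw [eval_quad1] at h1
  rw [eval_quad2] at h2
  rw [LinearIndependent.pair_iff, grad1, grad2]
  intro s r h
  have e0 : s * z 3 + r * (2 * z 0 + z 1) = 0 := by simpa using congrFun h 0
  have e1 : -(s * z 2) + r * z 0 = 0 := by simpa using congrFun h 1
  have e2 : -(s * z 1) + r * z 3 = 0 := by simpa using congrFun h 2
  have e3 : s * z 0 + r * (z 2 - 6 * z 3) = 0 := by simpa using congrFun h 3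
  have e4 : r * (c * z 4) = 0 := by
    have := congrFun h 4
    simpa [hc] using this
  have hall : ¬(z 0 = 0 ∧ z 1 = 0 ∧ z 2 = 0 ∧ z 3 = 0 ∧ z 4 = 0) := by
    rintro ⟨k0, k1, k2, k3, k4⟩
    apply h0
    funext i
    fin_cases i
    · exact k0
    · exact k1
    · exact k2
    · exact k3
    · exact k4
  by_cases hr : r = 0
  · refine ⟨?_, hr⟩
    by_contra hs
    rw [hr] at e0 e1 e2 e3
    have k3 : z 3 = 0 := by
      apply mul_left_cancel₀ hs
      linear_combination e0
    have k2 : z 2 = 0 := by
      apply mul_left_cancel₀ hs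
      linear_combination -e1
    have k1 : z 1 = 0 := by
      apply mul_left_cancel₀ hs
      linear_combination -e2
    have k0 : z 0 = 0 := by
      apply mul_left_cancel₀ hs
      linear_combination e3
    have k4 : z 4 = 0 := by
      by_contra h
      apply mul_ne_zero hc (pow_ne_zero 2 h)
      rw [k0, k1, k2, k3] at h2
      linear_combination -h2
    exact hall ⟨k0, k1, k2, k3, k4⟩
  · exfalso
    have k4 : z 4 = 0 := by
      have := (mul_eq_zero.1 e4).resolve_left hr
      exact (mul_eq_zero.1 this).resolve_left hc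
    obtain ⟨l, hl⟩ : ∃ l, s = r * l := ⟨s / r, by field_simp⟩
    rw [hl] at e0 e1 e2 e3
    have f1 : z 0 = l * z 2 := by
      apply mul_left_cancel₀ hr
      linear_combination e1
    have f2 : z 3 = l * z 1 := by
      apply mul_left_cancel₀ hr
      linear_combination e2
    have f3 : (1 + l ^ 2) * z 1 + 2 * l * z 2 = 0 := by
      apply mul_left_cancel₀ hr
      rw [f1, f2] at e0
      linear_combination e0
    have f4 : (1 + l ^ 2) * z 2 - 6 * l * z 1 = 0 := by
      apply mul_left_cancel₀ hr
      rw [f1, f2] at e3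
      linear_combination e3
    have f5 : (l ^ 2 - 1) * (z 1 * z 2) = 0 := by
      rw [f1, f2] at h1
      linear_combination h1
    have hfin : z 1 = 0 → z 2 = 0 → False := fun k1 k2 =>
      hall ⟨by rw [f1, k2, mul_zero], k1, k2, by rw [f2, k1, mul_zero], k4⟩
    rcases mul_eq_zero.1 f5 with k | k
    · have g1 : z 1 = -(l * z 2) := by linear_combination (1 / 2 : ℂ) * f3 - (1 / 2 : ℂ) * z 1 * k
      have g2 : z 2 = 0 := by
        rw [g1] at f4
        linear_combination (1 / 8 : ℂ) * f4 - (7 / 8 : ℂ) * z 2 * k
      exact hfin (by rw [g1, g2]; ring) g2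
    · rcases mul_eq_zero.1 k with k1 | k2
      · rw [k1] at f3 f4
        have g2 : z 2 = 0 := by linear_combination f4 - (1 / 2 : ℂ) * l * f3
        exact hfin k1 g2
      · rw [k2] at f3 f4
        have g1 : z 1 = 0 := by linear_combination f3 + (1 / 6 : ℂ) * l * f4
        exact hfin g1 k2

end Pool.Agent.Y198.DP
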