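import Mathlib
import Pool.Agent.Y198.DP.Facts

set_option autoImplicit false

namespace Pool.Agent.Y198.DP

open Co

theorem fibre_ne {p q : ℂ} (hp : p ≠ 0) (hq : q ≠ 0) {x : Co → ℂ} (hx : x ∈ fibre p q) :
    x t ≠ 0 ∧ x e ≠ 0 ∧ x u ≠ 0 ∧ x g ≠ 0 ∧ ¬(x a0 * x g = 0 ∧ x a1 * x e = 0) := by
  obtain ⟨⟨⟨-, -, h3, -, h5⟩, h6⟩, h7⟩ := hx
  have h8 : x t * x e ≠ 0 := by
    intro h
    apply h3 ⟨h, ?_⟩
    rw [h, mul_zero] at h7
    exact (mul_eq_zero.1 h7.symm).resolve_left hp
  have h9 : x u * x g ≠ 0 := by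
    intro h
    apply h3 ⟨?_, h⟩
    rw [h, mul_zero] at h7
    exact (mul_eq_zero.1 h7).resolve_left hq
  have ht := left_ne_zero_of_mul h8
  have he := right_ne_zero_of_mul h8
  have hu := left_ne_zero_of_mul h9
  have hg := right_ne_zero_of_mul h9
  refine ⟨ht, he, hu, hg, ?_⟩
  rintro ⟨k1, k2⟩
  apply h5 ⟨k1, k2, ?_⟩
  have k3 : x a0 = 0 := (mul_eq_zero.1 k1).resolve_right hg
  have k4 : x a1 = 0 := (mul_eq_zero.1 k2).resolve_right he
  rw [eval_eqn, k3, k4] at h6
  by_contra hw
  apply mul_ne_zero (mul_ne_zero ht hu) (pow_ne_zero 2 hw)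
  linear_combination -h6

theorem toP4_mem {p q : ℂ} (hp : p ≠ 0) (hq : q ≠ 0) {x : Co → ℂ} (hx : x ∈ fibre p q) :
    toP4 x ∈ surf (q / p) := by
  obtain ⟨ht, he, hu, hg, hA⟩ := fibre_ne hp hq hx
  obtain ⟨⟨⟨-, -, -, h4, -⟩, h6⟩, h7⟩ := hx
  refine ⟨?_, ?_, ?_⟩
  · intro h
    have e0 : x a0 * x g * (x b0 * x e) = 0 := congrFun h 0
    have e1 : x a0 * x g * (x b1 * x g) = 0 := congrFun h 1
    have e2 : x a1 * x e * (x b0 * x e) = 0 := congrFun h 2
    have e3 : x a1 * x e * (x b1 * x g) = 0 := congrFun h 3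
    apply h4
    by_cases hB : x b0 * x e = 0
    · refine ⟨hB, ?_⟩
      by_contra hB1
      exact hA ⟨(mul_eq_zero.1 e1).resolve_right hB1, (mul_eq_zero.1 e3).resolve_right hB1⟩
    · exact absurd ⟨(mul_eq_zero.1 e0).resolve_right hB, (mul_eq_zero.1 e2).resolve_right hB⟩ hA
  · rw [eval_quad1]
    simp only [toP4, Matrix.cons_val]
    ring
  · rw [eval_quad2]
    rw [eval_eqn] at h6
    simp only [toP4, Matrix.cons_val]
    have h8 : q / p * (x t * x e) = x u * x g := by
      rw [div_mul_eq_mul_div, h7, mul_div_assoc, mul_comm, div_mul_cancel₀ _ hp]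
    linear_combination x e * x g * h6 - x w ^ 2 * (x t * x e) * h8

theorem toP4_wt (τ : Fin 5 → ℂˣ) (x : Co → ℂ) :
    toP4 (fun i => wt τ i * x i) = fun k => ((τ 1 * τ 2 : ℂˣ) : ℂ) * toP4 x k := by
  have h0 := (τ 0).ne_zero
  have h3 := (τ 3).ne_zero
  have h4 := (τ 4).ne_zero
  funext k
  fin_cases k
  all_goals
    simp [toP4, wt_eq]
    field_simp

/-- Segre: nonzero pairs of vectors with proportional tensor products are proportional. -/
theorem segre {a a' b b' c d c' d' s : ℂ} (hs : s ≠ 0) (h1 : ¬(a = 0 ∧ b = 0))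
    (h2 : ¬(c = 0 ∧ d = 0)) (e0 : a' * c' = s * (a * c))
    (e1 : a' * d' = s * (a * d)) (e2 : b' * c' = s * (b * c)) (e3 : b' * d' = s * (b * d)) :
    ∃ l m : ℂ, l ≠ 0 ∧ m ≠ 0 ∧ l * m = s ∧ a' = l * a ∧ b' = l * b ∧ c' = m * c ∧ d' = m * d := by
  -- find the factor of the second vector
  have key : ∃ m : ℂ, m ≠ 0 ∧ c' = m * c ∧ d' = m * d := by
    by_cases ha : a = 0
    · have hb : b ≠ 0 := fun h => h1 ⟨ha, h⟩
      have hb' : b' ≠ 0 := by
        intro h
        apply h2
        rw [h, zero_mul] at e2 e3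
        exact ⟨(mul_eq_zero.1 ((mul_eq_zero.1 e2.symm).resolve_left hs)).resolve_left hb,
          (mul_eq_zero.1 ((mul_eq_zero.1 e3.symm).resolve_left hs)).resolve_left hb⟩
      refine ⟨s * b / b', div_ne_zero (mul_ne_zero hs hb) hb', ?_, ?_⟩
      · field_simp
        linear_combination e2
      · field_simp
        linear_combination e3
    · have ha' : a' ≠ 0 := by
        intro h
        apply h2
        rw [h, zero_mul] at e0 e1
        exact ⟨(mul_eq_zero.1 ((mul_eq_zero.1 e0.symm).resolve_left hs)).resolve_left ha,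
          (mul_eq_zero.1 ((mul_eq_zero.1 e1.symm).resolve_left hs)).resolve_left ha⟩
      refine ⟨s * a / a', div_ne_zero (mul_ne_zero hs ha) ha', ?_, ?_⟩
      · field_simp
        linear_combination e0
      · field_simp
        linear_combination e1
  obtain ⟨m, hm, hc, hd⟩ := key
  refine ⟨s / m, m, div_ne_zero hs hm, hm, div_mul_cancel₀ _ hm, ?_, ?_, hc, hd⟩
  · by_cases hcz : c = 0
    · have hdz : d ≠ 0 := fun h => h2 ⟨hcz, h⟩
      rw [hd] at e1
      field_simp
      apply mul_left_cancel₀ hdz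
      linear_combination e1
    · rw [hc] at e0
      field_simp
      apply mul_left_cancel₀ hcz
      linear_combination e0
  · by_cases hcz : c = 0
    · have hdz : d ≠ 0 := fun h => h2 ⟨hcz, h⟩
      rw [hd] at e3
      field_simp
      apply mul_left_cancel₀ hdz
      linear_combination e3
    · rw [hc] at e2
      field_simp
      apply mul_left_cancel₀ hcz
      linear_combination e2

theorem samePoint_iff {p q : ℂ} (hp : p ≠ 0) (hq : q ≠ 0) {x y : Co → ℂ} (hx : x ∈ fibre p q)
    (hy : y ∈ fibre p q) :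
    SamePoint x y ↔ ∃ s : ℂˣ, toP4 y = fun k => (s : ℂ) * toP4 x k := by
  constructor
  · rintro ⟨τ, hτ⟩
    have : y = fun i => wt τ i * x i := funext hτ
    exact ⟨τ 1 * τ 2, by rw [this, toP4_wt]⟩
  · rintro ⟨s, hs⟩
    obtain ⟨ht, he, hu, hg, hA⟩ := fibre_ne hp hq hx
    obtain ⟨ht', he', hu', hg', hA'⟩ := fibre_ne hp hq hy
    have e0 : y a0 * y g * (y b0 * y e) = s * (x a0 * x g * (x b0 * x e)) := congrFun hs 0
    have e1 : y a0 * y g * (y b1 * y g) = s * (x a0 * x g * (x b1 * x g)) := congrFun hs 1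
    have e2 : y a1 * y e * (y b0 * y e) = s * (x a1 * x e * (x b0 * x e)) := congrFun hs 2
    have e3 : y a1 * y e * (y b1 * y g) = s * (x a1 * x e * (x b1 * x g)) := congrFun hs 3
    have e4 : y w * (y t * y e) = s * (x w * (x t * x e)) := congrFun hs 4
    obtain ⟨l, m, hl, hm, hlm, f0, f1, f2, f3⟩ := segre s.ne_zero hA hx.1.1.2.2.2.1
      e0 e1 e2 e3
    have hF : y t * y e / (x t * x e) ≠ 0 :=
      div_ne_zero (mul_ne_zero ht' he') (mul_ne_zero ht he)
    refine ⟨![Units.mk0 _ hF, Units.mk0 m hm, Units.mk0 l hl, Units.mk0 _ (div_ne_zero he' he),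
      Units.mk0 _ (div_ne_zero hg' hg)], fun i => ?_⟩
    change y i = wt _ i * x i
    rw [wt_eq]
    have hxy : y u * y g * (x t * x e) = y t * y e * (x u * x g) := by
      apply mul_left_cancel₀ hp
      have k1 := hx.2
      have k2 := hy.2
      linear_combination (y t * y e) * k1 - (x t * x e) * k2
    cases i
    · simp
      field_simp
    · simp
      field_simp
      linear_combination hxy
    · simp
      field_simp
      linear_combination f2
    · simp
      field_simp
      linear_combination f3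
    · simp
      field_simp
      linear_combination f0
    · simp
      field_simp
      linear_combination f1
    · simp
      field_simp
      rw [← hlm] at e4
      linear_combination e4
    · simp
      field_simp
    · simp
      field_simp

theorem toP4_surj {p q : ℂ} (hp : p ≠ 0) (hq : q ≠ 0) {z : Fin 5 → ℂ} (hz : z ∈ surf (q / p)) :
    ∃ x ∈ fibre p q, toP4 x = z := by
  obtain ⟨h0, h1, h2⟩ := hz
  rw [eval_quad1] at h1
  rw [eval_quad2] at h2
  have key : ∃ a b c d : ℂ, ¬(a = 0 ∧ b = 0) ∧ ¬(c = 0 ∧ d = 0) ∧ a * c = z 0 ∧ a * d = z 1 ∧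
      b * c = z 2 ∧ b * d = z 3 := by
    by_cases k0 : z 0 = 0
    · by_cases k1 : z 1 = 0
      · by_cases k2 : z 2 = 0
        · by_cases k3 : z 3 = 0
          · exfalso
            apply h0
            have k4 : z 4 = 0 := by
              by_contra h
              apply mul_ne_zero (div_ne_zero hq hp) (pow_ne_zero 2 h)
              rw [k0, k1, k2, k3] at h2
              linear_combination -h2
            funext i
            fin_cases i
            · exact k0
            · exact k1
            · exact k2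
            · exact k3
            · exact k4
          · refine ⟨z 1, z 3, z 2 / z 3, 1, fun h => k3 h.2, fun h => one_ne_zero h.2, ?_,
              mul_one _, ?_, mul_one _⟩
            · field_simp
              linear_combination -h1
            · field_simp
        · refine ⟨z 0, z 2, 1, z 3 / z 2, fun h => k2 h.2, fun h => one_ne_zero h.1, mul_one _, ?_,
            mul_one _, ?_⟩
          · field_simp
            linear_combination h1
          · field_simp
      · refine ⟨z 1, z 3, z 0 / z 1, 1, fun h => k1 h.1, fun h => one_ne_zero h.2, ?_,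
          mul_one _, ?_, mul_one _⟩
        · field_simp
        · field_simp
          linear_combination h1
    · refine ⟨z 0, z 2, 1, z 1 / z 0, fun h => k0 h.1, fun h => one_ne_zero h.1, mul_one _, ?_,
        mul_one _, ?_⟩
      · field_simp
      · field_simp
        linear_combination -h1
  obtain ⟨a, b, c, d, h3, h4, e0, e1, e2, e3⟩ := key
  refine ⟨fun i => match i with
    | t => p
    | u => q
    | b0 => c
    | b1 => d
    | a0 => a
    | a1 => b
    | w => z 4 / p
    | e => 1
    | g => 1, ⟨⟨⟨?_, ?_, ?_, ?_, ?_⟩, ?_⟩, ?_⟩, ?_⟩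
  · exact fun h => hp h.1
  · exact fun h => hq h.1
  · exact fun h => hp (by simpa using h.1)
  · simpa using h4
  · intro h
    apply h3
    exact ⟨by simpa using h.1, by simpa using h.2.1⟩
  · rw [eval_eqn]
    simp only [mul_one]
    have h5 : p * q * (z 4 / p) ^ 2 = q / p * z 4 ^ 2 := by field_simp
    rw [← e0, ← e1, ← e2, ← e3] at h2
    linear_combination h2 - h5
  · simp only [mul_one]
    ring
  · funext i
    fin_cases i
    · simpa [toP4] using e0
    · simpa [toP4] using e1
    · simpa [toP4] using e2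
    · simpa [toP4] using e3
    · simp [toP4]
      field_simp

/-! ### The chart -/

theorem chart_mem {p : Fin 3 → ℂ} (hp : p 0 ≠ 0) : chart p ∈ coneX := by
  refine ⟨⟨?_, ?_, ?_, ?_, ?_⟩, ?_⟩
  · simp [chart]
  · simp [chart]
  · simp [chart, hp]
  · simp [chart]
  · simp [chart]
  · rw [eval_eqn]
    simp only [chart]
    field_simp
    ring

theorem chart_unique {x : Co → ℂ} (hx : x ∈ coneX) (ht : x t ≠ 0) (hb : x b1 ≠ 0)
    (ha : x a1 ≠ 0) (hw : x w ≠ 0) (he : x e ≠ 0) (hg : x g ≠ 0) :
    ∃! p : Fin 3 → ℂ, p 0 ≠ 0 ∧ SamePoint (chart p) x := by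
  have hB : x b1 * x g ≠ 0 := mul_ne_zero hb hg
  have hH : x a1 * x e ≠ 0 := mul_ne_zero ha he
  have hF : x a1 * x e * (x b1 * x g) / x w ≠ 0 := div_ne_zero (mul_ne_zero hH hB) hw
  have hE := hx.2
  rw [eval_eqn] at hE
  refine ⟨![x t * x e * x w / (x a1 * x e * (x b1 * x g)), x b0 * x e / (x b1 * x g),
    x a0 * x g / (x a1 * x e)], ⟨?_, ?_⟩, ?_⟩
  · simp [ht, he, hw, ha, hb, hg]
  · refine ⟨![Units.mk0 _ hF, Units.mk0 _ hB, Units.mk0 _ hH, Units.mk0 _ he, Units.mk0 _ hg],
      fun i => ?_⟩
    change x i = wt _ i * _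
    rw [wt_eq]
    cases i
    · simp [chart]
      field_simp
    · simp [chart]
      field_simp
      linear_combination -hE
    · simp [chart]
      field_simp
    · simp [chart]
      field_simp
    · simp [chart]
      field_simp
    · simp [chart]
      field_simp
    · simp [chart]
      field_simp
    · simp [chart]
    · simp [chart]
  · rintro p ⟨hp, τ, hτ⟩
    have k : ∀ i, x i = wt τ i * chart p i := hτ
    have kt := k t
    have kb0 := k b0
    have kb1 := k b1
    have ka0 := k a0
    have ka1 := k a1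
    have kw := k w
    have ke := k e
    have kg := k g
    rw [wt_eq] at kt kb0 kb1 ka0 ka1 kw ke kg
    simp only [chart, mul_one] at kt kb0 kb1 ka0 ka1 kw ke kg
    have h0 := (τ 0).ne_zero
    have h1 := (τ 1).ne_zero
    have h2 := (τ 2).ne_zero
    have h3 := (τ 3).ne_zero
    have h4 := (τ 4).ne_zero
    funext i
    fin_cases i
    · change p 0 = x t * x e * x w / (x a1 * x e * (x b1 * x g))
      rw [kt, kb1, ka1, kw, ke, kg]
      field_simp
    · change p 1 = x b0 * x e / (x b1 * x g)
      rw [kb0, kb1, ke, kg]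
      field_simp
    · change p 2 = x a0 * x g / (x a1 * x e)
      rw [ka0, ka1, ke, kg]
      field_simp

end Pool.Agent.Y198.DP
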