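import Mathlib
import Pool.Agent.Y198.DP.Fv
import Pool.Agent.Y198.DP.Zar

set_option autoImplicit false

namespace Pool.Agent.Y198.DP

open Polynomial Co

section coeffs

variable {R : Type} [CommRing R] (v : Fin 6 → R)

def ph2 : R := v 0 ^ 2 * v 1 ^ 2 * v 3 ^ 2 - v 4 ^ 2
def ph1 : R := v 0 ^ 4 * v 2 ^ 2 - 3 * v 1 ^ 4 * v 3 ^ 2 - 2 * v 4 * v 5
def ph0 : R := v 0 ^ 2 * v 1 ^ 2 * v 2 ^ 2 - v 5 ^ 2
def th2 : R := v 0 * v 1 * (v 0 ^ 3 * v 1 * v 3 - v 0 ^ 2 * v 4)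
def th1 : R := v 0 * v 1 * (v 0 ^ 3 * v 1 * v 2 - 3 * v 0 * v 1 ^ 3 * v 3 - v 0 ^ 2 * v 5
  + v 1 ^ 2 * v 4)
def th0 : R := v 0 * v 1 * (v 0 * v 1 ^ 3 * v 2 + v 1 ^ 2 * v 5)
def rh2 : R := v 1 ^ 2 * ph2 v - 2 * th2 v * v 2
def rh1 : R := v 1 ^ 2 * ph1 v - 2 * th1 v * v 2
def rh0 : R := v 1 ^ 2 * ph0 v - 2 * th0 v * v 2
def si2 : R := v 0 ^ 2 * ph2 v - 2 * th2 v * v 3
def si1 : R := v 0 ^ 2 * ph1 v - 2 * th1 v * v 3
def si0 : R := v 0 ^ 2 * ph0 v - 2 * th0 v * v 3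
def mu3 : R := v 0 * v 1 * (v 0 ^ 2 * ph2 v) - 2 * (th2 v * v 4)
def mu2 : R := v 0 * v 1 * (v 0 ^ 2 * ph1 v - v 1 ^ 2 * ph2 v) - 2 * (th2 v * v 5 + th1 v * v 4)
def mu1 : R := v 0 * v 1 * (v 0 ^ 2 * ph0 v - v 1 ^ 2 * ph1 v) - 2 * (th1 v * v 5 + th0 v * v 4)
def mu0 : R := - (v 0 * v 1 * (v 1 ^ 2 * ph0 v)) - 2 * (th0 v * v 5)

/-- the forms at `(Y, Z)` -/
def rF (Y Z : R) : R := rh2 v * Y ^ 2 + rh1 v * Y * Z + rh0 v * Z ^ 2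
def sF (Y Z : R) : R := si2 v * Y ^ 2 + si1 v * Y * Z + si0 v * Z ^ 2
def wF (Y Z : R) : R := mu3 v * Y ^ 3 + mu2 v * Y ^ 2 * Z + mu1 v * Y * Z ^ 2 + mu0 v * Z ^ 3
def phF (Y Z : R) : R := ph2 v * Y ^ 2 + ph1 v * Y * Z + ph0 v * Z ^ 2
def thF (Y Z : R) : R := th2 v * Y ^ 2 + th1 v * Y * Z + th0 v * Z ^ 2

theorem rF_eq (Y Z : R) : rF v Y Z = v 1 ^ 2 * phF v Y Z - 2 * thF v Y Z * v 2 := by
  simp only [rF, rh2, rh1, rh0, phF, thF]; ring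

theorem sF_eq (Y Z : R) : sF v Y Z = v 0 ^ 2 * phF v Y Z - 2 * thF v Y Z * v 3 := by
  simp only [sF, si2, si1, si0, phF, thF]; ring

theorem wF_eq (Y Z : R) : wF v Y Z = v 0 * v 1 * (v 0 ^ 2 * Y - v 1 ^ 2 * Z) * phF v Y Z
    - 2 * thF v Y Z * (v 4 * Y + v 5 * Z) := by
  simp only [wF, mu3, mu2, mu1, mu0, phF, thF]; ring

theorem phF_eq (Y Z : R) : phF v Y Z = v 0 ^ 2 * Z * (v 0 ^ 2 * Y + v 1 ^ 2 * Z) * v 2 ^ 2
    + v 1 ^ 2 * Y * (v 0 ^ 2 * Y - 3 * v 1 ^ 2 * Z) * v 3 ^ 2 - (v 4 * Y + v 5 * Z) ^ 2 := by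
  simp only [phF, ph2, ph1, ph0]; ring

theorem thF_eq (Y Z : R) : thF v Y Z = v 0 * v 1 * (v 0 * v 1 * (Z * (v 0 ^ 2 * Y + v 1 ^ 2 * Z) *
    v 2 + Y * (v 0 ^ 2 * Y - 3 * v 1 ^ 2 * Z) * v 3)
    - (v 0 ^ 2 * Y - v 1 ^ 2 * Z) * (v 4 * Y + v 5 * Z)) := by
  simp only [thF, th2, th1, th0]; ring

theorem key_eq (Y Z : R) :
    v 0 ^ 2 * Z * (v 0 ^ 2 * Y + v 1 ^ 2 * Z) * rF v Y Z ^ 2
      + v 1 ^ 2 * Y * (v 0 ^ 2 * Y - 3 * v 1 ^ 2 * Z) * sF v Y Z ^ 2 = wF v Y Z ^ 2 := by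
  rw [rF_eq, sF_eq, wF_eq]
  have h1 := phF_eq v Y Z
  have h2 := thF_eq v Y Z
  set P := phF v Y Z
  set Q := thF v Y Z
  linear_combination (-4 * Q ^ 2) * h1 + (4 * P * Q) * h2

/-- the family of sections -/
noncomputable def fam (j : ℕ) : Co → R[X]
  | t => 1
  | u => 1
  | b0 => C (v 0 ^ 2) * X ^ (2 * j)
  | b1 => C (v 1 ^ 2)
  | a0 => C (rh2 v) * X ^ (2 * (2 * j + 1)) + C (rh1 v) * X ^ (2 * j + 1) + C (rh0 v)
  | a1 => C (si2 v) * X ^ (2 * (2 * j + 1) + 2 * j) + C (si1 v) * X ^ (2 * j + 1 + 2 * j)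
      + C (si0 v) * X ^ (2 * j)
  | w => C (mu3 v) * X ^ (3 * (2 * j + 1) + j) + C (mu2 v) * X ^ (2 * (2 * j + 1) + j)
      + C (mu1 v) * X ^ (2 * j + 1 + j) + C (mu0 v) * X ^ j
  | e => X
  | g => 1

theorem fam_map {S : Type} [CommRing S] (φ : R →+* S) (j : ℕ) (i : Co) :
    (fam v j i).map φ = fam (fun k => φ (v k)) j i := by
  have h2 : φ 2 = 2 := map_ofNat φ 2
  have h3 : φ 3 = 3 := map_ofNat φ 3
  cases i <;>
    simp [fam, rh2, rh1, rh0, si2, si1, si0, mu3, mu2, mu1, mu0, ph2, ph1, ph0, th2, th1, th0,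
      h2, h3]

end coeffs

/-- the class of the family -/
def al (j : ℕ) : Fin 5 → ℤ := ![1, 2 * j + 1, 3 * (2 * j + 1), 1, 1]

/-- the values of the family -/
def famVal {R : Type} [CommRing R] (v : Fin 6 → R) (j : ℕ) (T U : R) : Co → R
  | t => 1
  | u => 1
  | b0 => v 0 ^ 2 * T ^ (2 * j)
  | b1 => v 1 ^ 2 * U ^ (2 * j)
  | a0 => U ^ (2 * j) * rF v (T ^ (2 * j + 1)) (U ^ (2 * j + 1))
  | a1 => T ^ (2 * j) * sF v (T ^ (2 * j + 1)) (U ^ (2 * j + 1))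
  | w => (T * U) ^ j * wF v (T ^ (2 * j + 1)) (U ^ (2 * j + 1))
  | e => T
  | g => U

theorem famVal_map {R S : Type} [CommRing R] [CommRing S] (φ : R →+* S) (v : Fin 6 → R) (j : ℕ)
    (T U : R) (i : Co) :
    φ (famVal v j T U i) = famVal (fun k => φ (v k)) j (φ T) (φ U) i := by
  have h2 : φ 2 = 2 := map_ofNat φ 2
  have h3 : φ 3 = 3 := map_ofNat φ 3
  cases i <;>
    simp [famVal, rF, sF, wF, rh2, rh1, rh0, si2, si1, si0, mu3, mu2, mu1, mu0, ph2, ph1, ph0,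
      th2, th1, th0, h2, h3]

theorem pair_al (j : ℕ) (i : Co) : (pair (al j) (cls i)).toNat =
    match i with
    | t => 0
    | u => 0
    | b0 => 2 * j
    | b1 => 2 * j
    | a0 => 6 * j + 2
    | a1 => 6 * j + 2
    | w => 8 * j + 3
    | e => 1
    | g => 1 := by
  cases i <;> simp [pair, al, cls, Fin.sum_univ_five] <;> omega

theorem val_fam (v : Fin 6 → ℂ) (j : ℕ) (T U : ℂ) :
    val (al j) (fam v j) T U = famVal v j T U := by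
  funext i
  rw [val, pair_al]
  cases i
  · simp [fam, famVal, fv_one]
  · simp [fam, famVal, fv_one]
  · simp only [fam, famVal]
    rw [fv_C_mul, fv_X_pow _ _ _ le_rfl]
    simp
  · simp only [fam, famVal]
    rw [fv_C]
  · simp only [fam, famVal, rF]
    rw [fv_add, fv_add, fv_C_mul, fv_C_mul, fv_C, fv_X_pow _ _ _ (by omega),
      fv_X_pow _ _ _ (by omega)]
    have e1 : 6 * j + 2 - 2 * (2 * j + 1) = 2 * j := by omega
    have e2 : 6 * j + 2 - (2 * j + 1) = 2 * j + (2 * j + 1) := by omega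
    have e3 : 6 * j + 2 = 2 * j + (2 * j + 1) + (2 * j + 1) := by omega
    rw [e1, e2, e3]
    ring
  · simp only [fam, famVal, sF]
    rw [fv_add, fv_add, fv_C_mul, fv_C_mul, fv_C_mul, fv_X_pow _ _ _ (by omega),
      fv_X_pow _ _ _ (by omega), fv_X_pow _ _ _ (by omega)]
    have e1 : 6 * j + 2 - (2 * (2 * j + 1) + 2 * j) = 0 := by omega
    have e2 : 6 * j + 2 - (2 * j + 1 + 2 * j) = 2 * j + 1 := by omega
    have e3 : 6 * j + 2 - 2 * j = (2 * j + 1) + (2 * j + 1) := by omega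
    rw [e1, e2, e3]
    ring
  · simp only [fam, famVal, wF]
    rw [fv_add, fv_add, fv_add, fv_C_mul, fv_C_mul, fv_C_mul, fv_C_mul,
      fv_X_pow _ _ _ (by omega), fv_X_pow _ _ _ (by omega), fv_X_pow _ _ _ (by omega),
      fv_X_pow _ _ _ (by omega)]
    have e1 : 8 * j + 3 - (3 * (2 * j + 1) + j) = j := by omega
    have e2 : 8 * j + 3 - (2 * (2 * j + 1) + j) = 2 * j + 1 + j := by omega
    have e3 : 8 * j + 3 - (2 * j + 1 + j) = 2 * (2 * j + 1) + j := by omega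
    have e4 : 8 * j + 3 - j = 3 * (2 * j + 1) + j := by omega
    rw [e1, e2, e3, e4]
    ring
  · simp only [fam, famVal]
    have := fv_X_pow 1 T U le_rfl
    simpa using this
  · simp [fam, famVal, fv_one]

end Pool.Agent.Y198.DP
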