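import Mathlib
import Pool.Agent.Y198.DP.Fam
import Pool.Agent.Y198.DP.Tor

set_option autoImplicit false

namespace Pool.Agent.Y198.DP

open Co

section cond

variable {R : Type} [CommRing R] (v : Fin 6 → R)

/-- the resultant of the forms `rF` and `sF` -/
def rsRes : R := (rh2 v * si0 v - rh0 v * si2 v) ^ 2
  - (rh2 v * si1 v - rh1 v * si2 v) * (rh1 v * si0 v - rh0 v * si1 v)

/-- the open condition for the family -/
def cond : R := v 0 * v 1 * rh0 v * si2 v * rsRes v

theorem cond_map {S : Type} [CommRing S] (φ : R →+* S) : φ (cond v) = cond (fun k => φ (v k)) := by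
  have h2 : φ 2 = 2 := map_ofNat φ 2
  have h3 : φ 3 = 3 := map_ofNat φ 3
  simp [cond, rsRes, rh2, rh1, rh0, si2, si1, si0, ph2, ph1, ph0, th2, th1, th0, h2, h3]

theorem rs_ne [IsDomain R] (hR : rsRes v ≠ 0) {Y Z : R} (hY : Y ≠ 0) (hZ : Z ≠ 0)
    (hr : rF v Y Z = 0) (hs : sF v Y Z = 0) : False := by
  rw [rF] at hr
  rw [sF] at hs
  have e1 : (rh1 v * si2 v - rh2 v * si1 v) * Y + (rh0 v * si2 v - rh2 v * si0 v) * Z = 0 := by
    apply mul_left_cancel₀ hZ
    linear_combination si2 v * hr - rh2 v * hs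
  have e2 : (rh2 v * si0 v - rh0 v * si2 v) * Y + (rh1 v * si0 v - rh0 v * si1 v) * Z = 0 := by
    apply mul_left_cancel₀ hY
    linear_combination si0 v * hr - rh0 v * hs
  apply mul_ne_zero hR hY
  rw [rsRes]
  linear_combination (rh1 v * si0 v - rh0 v * si1 v) * e1
    + (rh2 v * si0 v - rh0 v * si2 v) * e2

end cond

theorem famVal_eqn (v : Fin 6 → ℂ) (j : ℕ) (T U : ℂ) :
    MvPolynomial.eval (famVal v j T U) eqn = 0 := by
  rw [eval_eqn]
  simp only [famVal]
  have h := key_eq v (T ^ (2 * j + 1)) (U ^ (2 * j + 1))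
  have e1 : T ^ (2 * j + 1) = T ^ (2 * j) * T := pow_succ _ _
  have e2 : U ^ (2 * j + 1) = U ^ (2 * j) * U := pow_succ _ _
  set r := rF v (T ^ (2 * j + 1)) (U ^ (2 * j + 1))
  set s := sF v (T ^ (2 * j + 1)) (U ^ (2 * j + 1))
  set W := wF v (T ^ (2 * j + 1)) (U ^ (2 * j + 1))
  rw [e1, e2] at h
  have e3 : ((T * U) ^ j) ^ 2 = T ^ (2 * j) * U ^ (2 * j) := by
    rw [← pow_mul, mul_pow, mul_comm j 2]
  rw [mul_pow ((T * U) ^ j) W 2, e3]
  linear_combination T ^ (2 * j) * U ^ (2 * j) * h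

theorem famVal_mem {v : Fin 6 → ℂ} (hv : cond v ≠ 0) (j : ℕ) {T U : ℂ} (h : T ≠ 0 ∨ U ≠ 0) :
    famVal v j T U ∈ coneX := by
  rw [cond] at hv
  simp only [mul_ne_zero_iff] at hv
  obtain ⟨⟨⟨⟨h0, h1⟩, hr⟩, hs⟩, hR⟩ := hv
  refine ⟨⟨?_, ?_, ?_, ?_, ?_⟩, famVal_eqn v j T U⟩
  · simp [famVal]
  · simp [famVal]
  · simp only [famVal, one_mul]
    rintro ⟨rfl, rfl⟩
    simp at h
  · simp only [famVal]
    rintro ⟨h2, h3⟩
    have hT : T = 0 := by
      by_contra hT
      exact mul_ne_zero (mul_ne_zero (pow_ne_zero 2 h0) (pow_ne_zero _ hT)) hT h2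
    have hU : U = 0 := by
      by_contra hU
      exact mul_ne_zero (mul_ne_zero (pow_ne_zero 2 h1) (pow_ne_zero _ hU)) hU h3
    simp [hT, hU] at h
  · simp only [famVal]
    rintro ⟨h2, h3, -⟩
    by_cases hT : T = 0
    · have hU : U ≠ 0 := by
        rcases h with h | h
        · exact absurd hT h
        · exact h
      have : rF v (T ^ (2 * j + 1)) (U ^ (2 * j + 1)) ≠ 0 := by
        rw [hT, rF]
        simp [hr, hU]
      exact mul_ne_zero (mul_ne_zero (pow_ne_zero _ hU) this) hU h2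
    · by_cases hU : U = 0
      · have : sF v (T ^ (2 * j + 1)) (U ^ (2 * j + 1)) ≠ 0 := by
          rw [hU, sF]
          simp [hs, hT]
        exact mul_ne_zero (mul_ne_zero (pow_ne_zero _ hT) this) hT h3
      · have e1 : rF v (T ^ (2 * j + 1)) (U ^ (2 * j + 1)) = 0 := by
          by_contra hne
          exact mul_ne_zero (mul_ne_zero (pow_ne_zero _ hU) hne) hU h2
        have e2 : sF v (T ^ (2 * j + 1)) (U ^ (2 * j + 1)) = 0 := by
          by_contra hne
          exact mul_ne_zero (mul_ne_zero (pow_ne_zero _ hT) hne) hT h3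
        exact rs_ne v hR (pow_ne_zero _ hT) (pow_ne_zero _ hU) e1 e2

/-- the degrees of the family -/
def dg (j : ℕ) : Co → ℕ
  | t => 0
  | u => 0
  | b0 => 2 * j
  | b1 => 2 * j
  | a0 => 6 * j + 2
  | a1 => 6 * j + 2
  | w => 8 * j + 3
  | e => 1
  | g => 1

theorem pair_dg (j : ℕ) (i : Co) : pair (al j) (cls i) = (dg j i : ℤ) := by
  cases i <;> simp [pair, al, cls, Fin.sum_univ_five, dg] <;> ring

theorem natDegree_term {c : ℂ} {n d : ℕ} (h : n ≤ d) :
    (Polynomial.C c * Polynomial.X ^ n).natDegree ≤ d :=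
  (Polynomial.natDegree_C_mul_X_pow_le c n).trans h

theorem natDegree_fam (v : Fin 6 → ℂ) (j : ℕ) (i : Co) : (fam v j i).natDegree ≤ dg j i := by
  cases i
  · simp [fam]
  · simp [fam]
  · simp only [fam, dg]
    exact natDegree_term le_rfl
  · simp only [fam, dg]
    rw [Polynomial.natDegree_C]
    exact Nat.zero_le _
  · simp only [fam, dg]
    refine Polynomial.natDegree_add_le_of_degree_le (Polynomial.natDegree_add_le_of_degree_le
      (natDegree_term (by omega)) (natDegree_term (by omega))) ?_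
    rw [Polynomial.natDegree_C]
    exact Nat.zero_le _
  · simp only [fam, dg]
    exact Polynomial.natDegree_add_le_of_degree_le (Polynomial.natDegree_add_le_of_degree_le
      (natDegree_term (by omega)) (natDegree_term (by omega))) (natDegree_term (by omega))
  · simp only [fam, dg]
    exact Polynomial.natDegree_add_le_of_degree_le (Polynomial.natDegree_add_le_of_degree_le
      (Polynomial.natDegree_add_le_of_degree_le
      (natDegree_term (by omega)) (natDegree_term (by omega))) (natDegree_term (by omega)))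
      (natDegree_term (by omega))
  · simp [fam, dg]
  · simp [fam]

theorem fam_isSection {v : Fin 6 → ℂ} (hv : cond v ≠ 0) (j : ℕ) :
    IsSection (al j) (fam v j) where
  degree := by
    intro i k hk
    rw [pair_dg]
    exact_mod_cast (Polynomial.le_natDegree_of_ne_zero hk).trans (natDegree_fam v j i)
  mem := by
    intro T U h
    rw [val_fam]
    exact famVal_mem hv j h
  proj := by
    intro T U
    rw [val_fam]
    simp only [famVal]
    ring

/-- the parameters of the family -/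
noncomputable def condP : MvPolynomial (Fin 6) ℂ := cond MvPolynomial.X

theorem eval_condP (v : Fin 6 → ℂ) : MvPolynomial.eval v condP = cond v := by
  rw [condP, cond_map]
  simp

/-- the special parameters -/
def v0 : Fin 6 → ℂ := ![1, 1, 1, -1, 0, 1]

theorem v0_rh : rh2 v0 = 3 ∧ rh1 v0 = -8 ∧ rh0 v0 = -4 ∧ si2 v0 = -1 ∧ si1 v0 = 4 ∧ si0 v0 = 4 ∧
    mu3 v0 = 1 ∧ mu2 v0 = -1 ∧ mu1 v0 = -4 ∧ mu0 v0 = -4 := by
  have h0 : v0 0 = 1 := rfl
  have h1 : v0 1 = 1 := rfl
  have h2 : v0 2 = 1 := rfl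
  have h3 : v0 3 = -1 := rfl
  have h4 : v0 4 = 0 := rfl
  have h5 : v0 5 = 1 := rfl
  simp only [rh2, rh1, rh0, si2, si1, si0, mu3, mu2, mu1, mu0, ph2, ph1, ph0, th2, th1, th0, h0,
    h1, h2, h3, h4, h5]
  norm_num

theorem cond_v0 : cond v0 ≠ 0 := by
  obtain ⟨h1, h2, h3, h4, h5, h6, -⟩ := v0_rh
  have h7 : v0 0 = 1 := rfl
  have h8 : v0 1 = 1 := rfl
  rw [cond, rsRes, h1, h2, h3, h4, h5, h6, h7, h8]
  norm_num

/-- The family as a map to the space of homogeneous coordinates of sections. -/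
noncomputable def famRep (j : ℕ) (v : {v : Fin 6 → ℂ // cond v ≠ 0}) : SecRep (al j) :=
  ⟨fam v.1 j, fam_isSection v.2 j⟩

/-- the irreducible family in the space of sections -/
def famW (j : ℕ) : Set (Sec (al j)) := {s | ∃ v, s = mkSec (famRep j v)}

theorem irr_W (j : ℕ) : IsIrreducible (famW j) := by
  classical
  let _ := zariski (Fin 6)
  have hS : IsIrreducible {v : Fin 6 → ℂ | MvPolynomial.eval v condP ≠ 0} :=
    irr_open ⟨v0, by rw [eval_condP]; exact cond_v0⟩
  have hu : IsIrreducible (Set.univ : Set {v : Fin 6 → ℂ // cond v ≠ 0}) := by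
    have h1 : {v : Fin 6 → ℂ | MvPolynomial.eval v condP ≠ 0} =
        ((↑) : {v : Fin 6 → ℂ // cond v ≠ 0} → (Fin 6 → ℂ)) '' Set.univ := by
      ext v
      simp [eval_condP]
    refine ⟨⟨⟨v0, cond_v0⟩, trivial⟩, ?_⟩
    rintro _ _ ⟨A, hA, rfl⟩ ⟨B, hB, rfl⟩ ⟨a, -, ha⟩ ⟨b, -, hb⟩
    obtain ⟨c, hc, hc'⟩ := hS.2 A B hA hB ⟨a.1, by simpa [eval_condP] using a.2, ha⟩
      ⟨b.1, by simpa [eval_condP] using b.2, hb⟩
    exact ⟨⟨c, by simpa [eval_condP] using hc⟩, trivial, hc'⟩
  have hcont : Continuous (famRep j) := by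
    refine continuous_induced_rng.2 ?_
    have h1 := zar_cont (fun q : Co × ℕ => (fam (MvPolynomial.X : Fin 6 → MvPolynomial (Fin 6) ℂ)
      j q.1).coeff q.2)
    have h2 : ((fun (f : SecRep (al j)) (v : Co × ℕ) => (f.1 v.1).coeff v.2) ∘ famRep j) =
        (fun (v : Fin 6 → ℂ) (q : Co × ℕ) => MvPolynomial.eval v
          ((fam (MvPolynomial.X : Fin 6 → MvPolynomial (Fin 6) ℂ) j q.1).coeff q.2)) ∘
        ((↑) : {v : Fin 6 → ℂ // cond v ≠ 0} → (Fin 6 → ℂ)) := by
      funext v q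
      simp only [Function.comp_apply, famRep]
      rw [← Polynomial.coeff_map, fam_map]
      simp
    rw [h2]
    exact (@Continuous.comp _ _ _ _ (zariski (Fin 6)) (zariski (Co × ℕ)) _ _ h1
      continuous_subtype_val)
  have hmk : Continuous (mkSec : SecRep (al j) → Sec (al j)) := continuous_quotient_mk'
  have h3 := hu.image _ (hmk.comp hcont).continuousOn
  convert h3 using 1
  ext s
  simp [famW, eq_comm]

end Pool.Agent.Y198.DP
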