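import Mathlib
import Pool.Agent.Y198.DP.FamSec

set_option autoImplicit false

namespace Pool.Agent.Y198.DP

open Co

theorem exists_v {x : Co → ℂ} (hx : Gen x) (j : ℕ) :
    ∃ v : Fin 6 → ℂ, v 0 ^ 2 * (x t * (x t * x e) ^ (2 * j)) = x b0 ∧
      v 1 ^ 2 * (x u * (x u * x g) ^ (2 * j)) = x b1 ∧
      v 2 * (x u * (x u * x g) ^ (2 * j)) = x a0 ∧
      v 3 * (x t * (x t * x e) ^ (2 * j)) = x a1 ∧
      v 4 * ((x t * x e) ^ (2 * j + 1) * (x t * x e * (x u * x g)) ^ j) = x w ∧ v 5 = 0 ∧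
      thF v ((x t * x e) ^ (2 * j + 1)) ((x u * x g) ^ (2 * j + 1)) ≠ 0 := by
  obtain ⟨h, hd, -⟩ := hx
  set T := x t * x e with hT
  set U := x u * x g with hU
  have hT0 : T ≠ 0 := mul_ne_zero (h t) (h e)
  have hU0 : U ≠ 0 := mul_ne_zero (h u) (h g)
  have hA : x t * T ^ (2 * j) ≠ 0 := mul_ne_zero (h t) (pow_ne_zero _ hT0)
  have hB : x u * U ^ (2 * j) ≠ 0 := mul_ne_zero (h u) (pow_ne_zero _ hU0)
  have hC : T ^ (2 * j + 1) * (T * U) ^ j ≠ 0 :=
    mul_ne_zero (pow_ne_zero _ hT0) (pow_ne_zero _ (mul_ne_zero hT0 hU0))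
  obtain ⟨X0, hX⟩ := IsAlgClosed.exists_pow_nat_eq (x b0 / (x t * T ^ (2 * j))) two_pos
  obtain ⟨Y0, hY⟩ := IsAlgClosed.exists_pow_nat_eq (x b1 / (x u * U ^ (2 * j))) two_pos
  have hX1 : X0 ^ 2 * (x t * T ^ (2 * j)) = x b0 := by rw [hX, div_mul_cancel₀ _ hA]
  have hY1 : Y0 ^ 2 * (x u * U ^ (2 * j)) = x b1 := by rw [hY, div_mul_cancel₀ _ hB]
  have hX0 : X0 ≠ 0 := by
    rintro rfl
    apply h b0
    rw [← hX1]
    ring
  have hY0 : Y0 ≠ 0 := by
    rintro rfl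
    apply h b1
    rw [← hY1]
    ring
  set r1 := x a0 / (x u * U ^ (2 * j)) with hr
  set s1 := x a1 / (x t * T ^ (2 * j)) with hs
  set w1 := x w / (T ^ (2 * j + 1) * (T * U) ^ j) with hw
  have hr1 : r1 * (x u * U ^ (2 * j)) = x a0 := div_mul_cancel₀ _ hB
  have hs1 : s1 * (x t * T ^ (2 * j)) = x a1 := div_mul_cancel₀ _ hA
  have hw1 : w1 * (T ^ (2 * j + 1) * (T * U) ^ j) = x w := div_mul_cancel₀ _ hC
  have hw0 : w1 ≠ 0 := div_ne_zero (h w) hC
  have hN : X0 ^ 2 * T ^ (2 * j + 1) - Y0 ^ 2 * U ^ (2 * j + 1) ≠ 0 := by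
    have : X0 ^ 2 * T ^ (2 * j + 1) - Y0 ^ 2 * U ^ (2 * j + 1) = x b0 * x e - x b1 * x g := by
      rw [← hX1, ← hY1, pow_succ, pow_succ]
      rw [hT, hU]
      ring
    rw [this]
    exact hd
  by_cases h1 : thF ![X0, Y0, r1, s1, w1, 0] (T ^ (2 * j + 1)) (U ^ (2 * j + 1)) = 0
  · refine ⟨![-X0, Y0, r1, s1, w1, 0], ?_, hY1, hr1, hs1, hw1, rfl, ?_⟩
    · change (-X0) ^ 2 * _ = _
      rw [neg_sq]
      exact hX1
    · intro h2
      rw [thF_eq] at h1 h2
      simp only [Matrix.cons_val_zero, Matrix.cons_val_one, Matrix.cons_val] at h1 h2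
      apply mul_ne_zero (mul_ne_zero hX0 hY0) (mul_ne_zero hN
        (mul_ne_zero hw0 (pow_ne_zero (2 * j + 1) hT0)))
      linear_combination (-1 / 2 : ℂ) * h1 + (1 / 2 : ℂ) * h2
  · exact ⟨![X0, Y0, r1, s1, w1, 0], hX1, hY1, hr1, hs1, hw1, rfl, h1⟩

theorem ph_zero {x : Co → ℂ} (hx : Gen x) (j : ℕ) {v : Fin 6 → ℂ}
    (h0 : v 0 ^ 2 * (x t * (x t * x e) ^ (2 * j)) = x b0)
    (h1 : v 1 ^ 2 * (x u * (x u * x g) ^ (2 * j)) = x b1)
    (h2 : v 2 * (x u * (x u * x g) ^ (2 * j)) = x a0)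
    (h3 : v 3 * (x t * (x t * x e) ^ (2 * j)) = x a1)
    (h4 : v 4 * ((x t * x e) ^ (2 * j + 1) * (x t * x e * (x u * x g)) ^ j) = x w)
    (h5 : v 5 = 0) :
    phF v ((x t * x e) ^ (2 * j + 1)) ((x u * x g) ^ (2 * j + 1)) = 0 := by
  obtain ⟨h, -, hE⟩ := hx
  rw [eval_eqn, ← h0, ← h1, ← h2, ← h3, ← h4] at hE
  have e1 : (x t * x e) ^ (2 * j + 1) = (x t * x e) ^ (2 * j) * (x t * x e) := pow_succ _ _
  have e2 : (x u * x g) ^ (2 * j + 1) = (x u * x g) ^ (2 * j) * (x u * x g) := pow_succ _ _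
  have e3 : ((x t * x e * (x u * x g)) ^ j) ^ 2 = (x t * x e) ^ (2 * j) * (x u * x g) ^ (2 * j) := by
    rw [← pow_mul, mul_pow, mul_comm j 2]
  have hA : (x t * x e) ^ (2 * j) ≠ 0 := pow_ne_zero _ (mul_ne_zero (h t) (h e))
  have hB : (x u * x g) ^ (2 * j) ≠ 0 := pow_ne_zero _ (mul_ne_zero (h u) (h g))
  rw [e1] at hE
  rw [phF_eq, e1, e2, h5]
  set A := (x t * x e) ^ (2 * j)
  set B := (x u * x g) ^ (2 * j)
  set D := (x t * x e * (x u * x g)) ^ j
  apply mul_left_cancel₀ (mul_ne_zero (mul_ne_zero (h t) (h u)) (mul_ne_zero hA hB))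
  linear_combination hE + x t * x u * (v 4 * (A * (x t * x e))) ^ 2 * e3

/-- A generic point of `X` is a point of a curve of the family. -/
theorem cover {x : Co → ℂ} (hx : Gen x) (j : ℕ) :
    ∃ (τ : Fin 5 → ℂˣ) (v : Fin 6 → ℂ) (T U : ℂ), T ≠ 0 ∧
      ∀ i, x i = wt τ i * famVal v j T U i := by
  obtain ⟨v, h0, h1, h2, h3, h4, h5, h6⟩ := exists_v hx j
  have h7 := ph_zero hx j h0 h1 h2 h3 h4 h5
  obtain ⟨h, -, -⟩ := hx
  set Y := (x t * x e) ^ (2 * j + 1) with hY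
  set Z := (x u * x g) ^ (2 * j + 1) with hZ
  have hth : -2 * thF v Y Z ≠ 0 := mul_ne_zero (by norm_num) h6
  refine ⟨![1, 1, (Units.mk0 _ hth)⁻¹, (Units.mk0 _ (h t))⁻¹, (Units.mk0 _ (h u))⁻¹], v,
    x t * x e, x u * x g, mul_ne_zero (h t) (h e), ?_⟩
  have ht := h t
  have hu := h u
  intro i
  rw [wt_eq]
  cases i
  · simp [famVal]
  · simp [famVal]
  · simp only [famVal, Matrix.cons_val]
    rw [← h0]
    simp
    ring
  · simp only [famVal, Matrix.cons_val]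
    rw [← h1]
    simp
    ring
  · simp only [famVal, Matrix.cons_val]
    rw [← h2, ← hY, ← hZ, rF_eq, h7]
    simp
    field_simp
  · simp only [famVal, Matrix.cons_val]
    rw [← h3, ← hY, ← hZ, sF_eq, h7]
    simp
    field_simp
  · simp only [famVal, Matrix.cons_val]
    rw [← h4, ← hY, ← hZ, wF_eq, h7, h5]
    simp
    field_simp
  · simp only [famVal, Matrix.cons_val]
    simp [ht]
  · simp only [famVal, Matrix.cons_val]
    simp [hu]

theorem mkSec_smul {α : Fin 5 → ℤ} (f : SecRep α) (τ : Fin 5 → ℂˣ) :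
    mkSec (⟨_, f.2.smul τ⟩ : SecRep α) = mkSec f :=
  (Quotient.sound (s := secSetoid α) ⟨τ, fun _ => rfl⟩).symm

/-- A set of sections which contains the family is dominant. -/
theorem dominant_of {j : ℕ} {M : Set (Sec (al j))} (hM : famW j ⊆ M) : IsDominant M := by
  apply dense_of
  intro P hP x hx
  obtain ⟨τ, v, T, U, hT, hx'⟩ := cover hx j
  -- the polynomial in the parameters
  set Pt : MvPolynomial (Fin 6) ℂ := MvPolynomial.aeval (fun i : Co => MvPolynomial.C (wt τ i) *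
    famVal MvPolynomial.X j (MvPolynomial.C T) (MvPolynomial.C U) i) P with hPt
  have hev : ∀ v' : Fin 6 → ℂ, MvPolynomial.eval v' Pt =
      MvPolynomial.eval (fun i => wt τ i * famVal v' j T U i) P := by
    intro v'
    have key : ((MvPolynomial.eval v').comp (MvPolynomial.aeval (fun i : Co =>
        (MvPolynomial.C (wt τ i) * famVal MvPolynomial.X j (MvPolynomial.C T)
          (MvPolynomial.C U) i : MvPolynomial (Fin 6) ℂ)) :
          MvPolynomial Co ℂ →ₐ[ℂ] MvPolynomial (Fin 6) ℂ).toRingHom) =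
        MvPolynomial.eval (fun i => wt τ i * famVal v' j T U i) := by
      apply MvPolynomial.ringHom_ext
      · intro a
        simp
      · intro i
        simp only [AlgHom.toRingHom_eq_coe, RingHom.coe_comp, RingHom.coe_coe,
          Function.comp_apply, MvPolynomial.aeval_X, map_mul, MvPolynomial.eval_C,
          MvPolynomial.eval_X]
        rw [famVal_map]
        simp
    exact DFunLike.congr_fun key P
  have hPt0 : Pt = 0 := by
    have hc : condP ≠ 0 := by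
      intro h
      apply cond_v0
      rw [← eval_condP, h, map_zero]
    apply zero_of_open hc
    intro v' hv'
    rw [eval_condP] at hv'
    rw [hev]
    apply hP
    refine ⟨⟨_, (famRep j ⟨v', hv'⟩).2.smul τ⟩, ?_, T, U, Or.inl hT, ?_⟩
    · rw [mkSec_smul]
      exact hM ⟨_, rfl⟩
    · rw [fv_wt]
      simp only [famRep, val_fam]
  have h1 := hev v
  rw [hPt0, map_zero] at h1
  have h2 : x = fun i => wt τ i * famVal v j T U i := funext hx'
  rw [h2]
  exact h1.symm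

end Pool.Agent.Y198.DP
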