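import Mathlib

set_option autoImplicit false

namespace Pool.Agent.Y198.DP

open Polynomial

theorem res_mul {R : Type} [CommRing R] (f p q : R[X]) (m a b : ℕ) (hf : f.natDegree ≤ m)
    (hp : p.natDegree ≤ a) (hq : q.natDegree ≤ b) :
    resultant f (p * q) m (a + b) = resultant f p m a * resultant f q m b := by
  obtain ⟨k, rfl⟩ := Nat.exists_eq_add_of_le hp
  obtain ⟨l, rfl⟩ := Nat.exists_eq_add_of_le hq
  have h1 : p.natDegree + k + (q.natDegree + l) = (p.natDegree + q.natDegree) + (k + l) := by ring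
  rw [h1, resultant_add_right_deg f (p * q) m _ (k + l) natDegree_mul_le,
    resultant_mul_right f p q m hf, resultant_add_right_deg f p m _ k le_rfl,
    resultant_add_right_deg f q m _ l le_rfl]
  ring

theorem res_sq {R : Type} [CommRing R] (f p : R[X]) (m a : ℕ) (hf : f.natDegree ≤ m)
    (hp : p.natDegree ≤ a) :
    resultant f (p ^ 2) m (2 * a) = resultant f p m a ^ 2 := by
  rw [sq, two_mul, res_mul f p p m a a hf hp hp, sq]

theorem res_mul_left {R : Type} [CommRing R] (p q f : R[X]) (a b m : ℕ) (hf : f.natDegree ≤ m)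
    (hp : p.natDegree ≤ a) (hq : q.natDegree ≤ b) :
    resultant (p * q) f (a + b) m = resultant p f a m * resultant q f b m := by
  rw [resultant_comm, res_mul f p q m a b hf hp hq, resultant_comm f p, resultant_comm f q]
  have : (-1 : R) ^ ((a + b) * m) * ((-1) ^ (m * a) * resultant p f a m *
      ((-1) ^ (m * b) * resultant q f b m)) =
      ((-1) ^ (m * a) * (-1) ^ (m * a)) * ((-1) ^ (m * b) * (-1) ^ (m * b)) *
        (resultant p f a m * resultant q f b m) := by
    rw [add_mul, pow_add, mul_comm a m, mul_comm b m]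
    ring
  rw [this, ← mul_pow, ← mul_pow]
  simp

section general

variable {R : Type} [CommRing R] (b0 b1 a0 a1 w e g : R[X]) (α β : ℕ)

/-- the two invariants -/
noncomputable def invA : R :=
  resultant (b0 * e + b1 * g) w (β + 1) (α + β + 1) *
    resultant (b0 * e - 3 * (b1 * g)) b0 (β + 1) β *
    resultant (b0 * e - 3 * (b1 * g)) a0 (β + 1) α

noncomputable def invB : R :=
  resultant (b0 * e - 3 * (b1 * g)) w (β + 1) (α + β + 1) *
    resultant (b0 * e + b1 * g) b1 (β + 1) β *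
    resultant (b0 * e + b1 * g) a1 (β + 1) α

theorem invA_map {S : Type} [CommRing S] (φ : R →+* S) :
    φ (invA b0 b1 a0 w e g α β) = invA (b0.map φ) (b1.map φ) (a0.map φ) (w.map φ) (e.map φ)
      (g.map φ) α β := by
  have h1 : b0.map φ * e.map φ + b1.map φ * g.map φ = (b0 * e + b1 * g).map φ := by simp
  have h2 : b0.map φ * e.map φ - 3 * (b1.map φ * g.map φ) = (b0 * e - 3 * (b1 * g)).map φ := by
    simp
  rw [invA, invA, h1, h2, resultant_map_map, resultant_map_map, resultant_map_map, map_mul,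
    map_mul]

theorem invB_map {S : Type} [CommRing S] (φ : R →+* S) :
    φ (invB b0 b1 a1 w e g α β) = invB (b0.map φ) (b1.map φ) (a1.map φ) (w.map φ) (e.map φ)
      (g.map φ) α β := by
  have h1 : b0.map φ * e.map φ + b1.map φ * g.map φ = (b0 * e + b1 * g).map φ := by simp
  have h2 : b0.map φ * e.map φ - 3 * (b1.map φ * g.map φ) = (b0 * e - 3 * (b1 * g)).map φ := by
    simp
  rw [invB, invB, h1, h2, resultant_map_map, resultant_map_map, resultant_map_map, map_mul,
    map_mul]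

variable (cb0 cb1 ca0 ca1 cw ce cg : R)

theorem invA_smul (h : cb0 * ce = cb1 * cg) :
    invA (C cb0 * b0) (C cb1 * b1) (C ca0 * a0) (C cw * w) (C ce * e) (C cg * g) α β =
      (cb0 * ce) ^ (2 * α + 2 * β + 1) * (cw * (cb0 * ca0)) ^ (β + 1) *
        invA b0 b1 a0 w e g α β := by
  have e1 : C cb0 * b0 * (C ce * e) + C cb1 * b1 * (C cg * g) =
      C (cb0 * ce) * (b0 * e + b1 * g) := by
    rw [mul_add]
    nth_rewrite 2 [h]
    rw [C_mul, C_mul]
    ring
  have e2 : C cb0 * b0 * (C ce * e) - 3 * (C cb1 * b1 * (C cg * g)) =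
      C (cb0 * ce) * (b0 * e - 3 * (b1 * g)) := by
    rw [mul_sub]
    nth_rewrite 2 [h]
    rw [C_mul, C_mul]
    ring
  rw [invA, invA, e1, e2]
  simp only [resultant_C_mul_left, resultant_C_mul_right]
  ring

theorem invB_smul (h : cb0 * ce = cb1 * cg) :
    invB (C cb0 * b0) (C cb1 * b1) (C ca1 * a1) (C cw * w) (C ce * e) (C cg * g) α β =
      (cb0 * ce) ^ (2 * α + 2 * β + 1) * (cw * (cb1 * ca1)) ^ (β + 1) *
        invB b0 b1 a1 w e g α β := by
  have e1 : C cb0 * b0 * (C ce * e) + C cb1 * b1 * (C cg * g) =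
      C (cb0 * ce) * (b0 * e + b1 * g) := by
    rw [mul_add]
    nth_rewrite 2 [h]
    rw [C_mul, C_mul]
    ring
  have e2 : C cb0 * b0 * (C ce * e) - 3 * (C cb1 * b1 * (C cg * g)) =
      C (cb0 * ce) * (b0 * e - 3 * (b1 * g)) := by
    rw [mul_sub]
    nth_rewrite 2 [h]
    rw [C_mul, C_mul]
    ring
  rw [invB, invB, e1, e2]
  simp only [resultant_C_mul_left, resultant_C_mul_right]
  ring

end general

variable (b0 b1 a0 a1 w e g : ℂ[X]) (c : ℂ) (α β : ℕ)

theorem inv_sq (hb0 : b0.natDegree ≤ β) (hb1 : b1.natDegree ≤ β) (ha0 : a0.natDegree ≤ α)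
    (ha1 : a1.natDegree ≤ α) (hw : w.natDegree ≤ α + β + 1) (he : e.natDegree ≤ 1)
    (hg : g.natDegree ≤ 1) (hc : c ≠ 0)
    (heq : (b0 * e + b1 * g) * b0 * g * a0 ^ 2 + (b0 * e - 3 * (b1 * g)) * b1 * e * a1 ^ 2 =
      C c * w ^ 2) :
    invA b0 b1 a0 w e g α β ^ 2 = (-3) ^ β * invB b0 b1 a1 w e g α β ^ 2 := by
  have h0e : (b0 * e).natDegree ≤ β + 1 := natDegree_mul_le.trans (add_le_add hb0 he)
  have h1g : (b1 * g).natDegree ≤ β + 1 := natDegree_mul_le.trans (add_le_add hb1 hg)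
  have h3g : (3 * (b1 * g)).natDegree ≤ β + 1 := by
    refine natDegree_mul_le.trans ?_
    have : (3 : ℂ[X]).natDegree = 0 := natDegree_ofNat 3
    rw [this, zero_add]
    exact h1g
  set L1 := b0 * e + b1 * g with hL1
  set L2 := b0 * e - 3 * (b1 * g) with hL2
  have hd1 : L1.natDegree ≤ β + 1 := natDegree_add_le_of_degree_le h0e h1g
  have hd2 : L2.natDegree ≤ β + 1 := by
    have := natDegree_sub_le_of_le h0e h3g
    rwa [max_self] at this
  have hb0g : (b0 * g * a0 ^ 2).natDegree ≤ β + 1 + 2 * α :=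
    natDegree_mul_le.trans (add_le_add (natDegree_mul_le.trans (add_le_add hb0 hg))
      (natDegree_pow_le.trans (Nat.mul_le_mul_left 2 ha0)))
  have hb1e : (b1 * e * a1 ^ 2).natDegree ≤ β + 1 + 2 * α :=
    natDegree_mul_le.trans (add_le_add (natDegree_mul_le.trans (add_le_add hb1 he))
      (natDegree_pow_le.trans (Nat.mul_le_mul_left 2 ha1)))
  -- the first resultant
  have A1 : c ^ (β + 1) * resultant L1 w (β + 1) (α + β + 1) ^ 2 =
      (-4) ^ (β + 1) * (resultant L1 e (β + 1) 1 * (resultant L1 g (β + 1) 1 *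
        (resultant L1 b1 (β + 1) β ^ 2 * resultant L1 a1 (β + 1) α ^ 2))) := by
    have e1 : C c * w ^ 2 = C (-4) * (e * (g * (b1 ^ 2 * a1 ^ 2))) +
        L1 * (b0 * g * a0 ^ 2 + b1 * e * a1 ^ 2) := by
      rw [← heq, hL1, hL2]
      have : (C (-4) : ℂ[X]) = -4 := by rw [map_neg, map_ofNat]
      rw [this]
      ring
    have e2 : resultant L1 (C c * w ^ 2) (β + 1) (2 * (α + β + 1)) =
        c ^ (β + 1) * resultant L1 w (β + 1) (α + β + 1) ^ 2 := by
      rw [resultant_C_mul_right, res_sq _ _ _ _ hd1 hw]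
    rw [← e2, e1, resultant_add_mul_right _ _ _ _ _ _ hd1, resultant_C_mul_right]
    · have : 2 * (α + β + 1) = 1 + (1 + (2 * β + 2 * α)) := by ring
      rw [this, res_mul _ _ _ _ _ _ hd1 he, res_mul _ _ _ _ _ _ hd1 hg,
        res_mul _ _ _ _ _ _ hd1, res_sq _ _ _ _ hd1 hb1, res_sq _ _ _ _ hd1 ha1]
      · exact natDegree_pow_le.trans (Nat.mul_le_mul_left 2 hb1)
      · exact natDegree_pow_le.trans (Nat.mul_le_mul_left 2 ha1)
      · exact natDegree_mul_le.trans (add_le_add (natDegree_pow_le.trans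
          (Nat.mul_le_mul_left 2 hb1)) (natDegree_pow_le.trans (Nat.mul_le_mul_left 2 ha1)))
      · exact natDegree_mul_le.trans (add_le_add hg (natDegree_mul_le.trans (add_le_add
          (natDegree_pow_le.trans (Nat.mul_le_mul_left 2 hb1)) (natDegree_pow_le.trans
            (Nat.mul_le_mul_left 2 ha1)))))
    · have := natDegree_add_le_of_degree_le hb0g hb1e
      omega
  have A2 : 3 ^ (β + 1) * (c ^ (β + 1) * resultant L2 w (β + 1) (α + β + 1) ^ 2) =
      4 ^ (β + 1) * (resultant L2 e (β + 1) 1 * (resultant L2 g (β + 1) 1 *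
        (resultant L2 b0 (β + 1) β ^ 2 * resultant L2 a0 (β + 1) α ^ 2))) := by
    have e1 : C 3 * (C c * w ^ 2) = C 4 * (e * (g * (b0 ^ 2 * a0 ^ 2))) +
        L2 * (3 * (b1 * e * a1 ^ 2) - b0 * g * a0 ^ 2) := by
      rw [← heq, hL1, hL2]
      have h3 : (C 3 : ℂ[X]) = 3 := map_ofNat C 3
      have h4 : (C 4 : ℂ[X]) = 4 := map_ofNat C 4
      rw [h3, h4]
      ring
    have e2 : resultant L2 (C 3 * (C c * w ^ 2)) (β + 1) (2 * (α + β + 1)) =
        3 ^ (β + 1) * (c ^ (β + 1) * resultant L2 w (β + 1) (α + β + 1) ^ 2) := by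
      rw [resultant_C_mul_right, resultant_C_mul_right, res_sq _ _ _ _ hd2 hw]
    rw [← e2, e1, resultant_add_mul_right _ _ _ _ _ _ hd2, resultant_C_mul_right]
    · have : 2 * (α + β + 1) = 1 + (1 + (2 * β + 2 * α)) := by ring
      rw [this, res_mul _ _ _ _ _ _ hd2 he, res_mul _ _ _ _ _ _ hd2 hg,
        res_mul _ _ _ _ _ _ hd2, res_sq _ _ _ _ hd2 hb0, res_sq _ _ _ _ hd2 ha0]
      · exact natDegree_pow_le.trans (Nat.mul_le_mul_left 2 hb0)
      · exact natDegree_pow_le.trans (Nat.mul_le_mul_left 2 ha0)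
      · exact natDegree_mul_le.trans (add_le_add (natDegree_pow_le.trans
          (Nat.mul_le_mul_left 2 hb0)) (natDegree_pow_le.trans (Nat.mul_le_mul_left 2 ha0)))
      · exact natDegree_mul_le.trans (add_le_add hg (natDegree_mul_le.trans (add_le_add
          (natDegree_pow_le.trans (Nat.mul_le_mul_left 2 hb0)) (natDegree_pow_le.trans
            (Nat.mul_le_mul_left 2 ha0)))))
    · have h3 : (3 * (b1 * e * a1 ^ 2)).natDegree ≤ β + 1 + 2 * α := by
        refine natDegree_mul_le.trans ?_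
        have : (3 : ℂ[X]).natDegree = 0 := natDegree_ofNat 3
        rw [this, zero_add]
        exact hb1e
      have := natDegree_sub_le_of_le h3 hb0g
      rw [max_self] at this
      omega
  have B1 : resultant L1 e (β + 1) 1 = resultant (b1 * g) e (β + 1) 1 := by
    have : L1 = b1 * g + e * b0 := by rw [hL1]; ring
    rw [this, resultant_add_mul_left _ _ _ _ _ (by omega) he]
  have B2 : resultant L2 e (β + 1) 1 = (-3) * resultant (b1 * g) e (β + 1) 1 := by
    have : L2 = C (-3) * (b1 * g) + e * b0 := by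
      rw [hL2]
      have : (C (-3) : ℂ[X]) = -3 := by rw [map_neg, map_ofNat]
      rw [this]
      ring
    rw [this, resultant_add_mul_left _ _ _ _ _ (by omega) he, resultant_C_mul_left, pow_one]
  have B3 : resultant L1 g (β + 1) 1 = resultant (b0 * e) g (β + 1) 1 := by
    have : L1 = b0 * e + g * b1 := by rw [hL1]; ring
    rw [this, resultant_add_mul_left _ _ _ _ _ (by omega) hg]
  have B4 : resultant L2 g (β + 1) 1 = resultant (b0 * e) g (β + 1) 1 := by
    have : L2 = b0 * e + g * (-3 * b1) := by rw [hL2]; ring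
    rw [this, resultant_add_mul_left _ _ _ _ _ _ hg]
    have : (-3 * b1).natDegree ≤ β := by
      refine natDegree_mul_le.trans ?_
      have : (-3 : ℂ[X]).natDegree = 0 := by
        rw [natDegree_neg]
        exact natDegree_ofNat 3
      rw [this, zero_add]
      exact hb1
    omega
  have hcn : (3 : ℂ) ^ (β + 1) * c ^ (β + 1) ≠ 0 :=
    mul_ne_zero (pow_ne_zero _ (by norm_num)) (pow_ne_zero _ hc)
  apply mul_left_cancel₀ hcn
  rw [invA, invB, ← hL1, ← hL2]
  rw [B1, B3] at A1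
  rw [B2, B4] at A2
  set x1 := resultant L1 w (β + 1) (α + β + 1)
  set x2 := resultant L2 w (β + 1) (α + β + 1)
  set y1 := resultant L1 b1 (β + 1) β
  set z1 := resultant L1 a1 (β + 1) α
  set y2 := resultant L2 b0 (β + 1) β
  set z2 := resultant L2 a0 (β + 1) α
  set q := resultant (b1 * g) e (β + 1) 1
  set r := resultant (b0 * e) g (β + 1) 1
  have k1 : (3 : ℂ) ^ (β + 1) * c ^ (β + 1) * (x1 * y2 * z2) ^ 2 =
      3 ^ (β + 1) * (c ^ (β + 1) * x1 ^ 2) * (y2 ^ 2 * z2 ^ 2) := by ring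
  have k2 : (3 : ℂ) ^ (β + 1) * c ^ (β + 1) * ((-3) ^ β * (x2 * y1 * z1) ^ 2) =
      (-3) ^ β * (3 ^ (β + 1) * (c ^ (β + 1) * x2 ^ 2)) * (y1 ^ 2 * z1 ^ 2) := by ring
  rw [k1, k2, A1, A2]
  have k3 : (-4 : ℂ) ^ (β + 1) = (-1) ^ (β + 1) * 4 ^ (β + 1) := by rw [← mul_pow]; norm_num
  have k4 : (-3 : ℂ) ^ β * (-3) = (-1) ^ (β + 1) * 3 ^ (β + 1) := by
    rw [← pow_succ, ← mul_pow]; norm_num
  rw [k3]
  linear_combination (-(4 ^ (β + 1) * q * r * y1 ^ 2 * z1 ^ 2 * y2 ^ 2 * z2 ^ 2)) * k4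

end Pool.Agent.Y198.DP
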