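import Mathlib
import Pool.Agent.Y198.DP.Res
import Pool.Agent.Y198.DP.FamSec

set_option autoImplicit false

namespace Pool.Agent.Y198.DP

open Co

variable {j : ℕ}

theorem sec_natDegree {f : Co → Polynomial ℂ} (hf : IsSection (al j) f) (i : Co) :
    (f i).natDegree ≤ dg j i := by
  rw [Polynomial.natDegree_le_iff_coeff_eq_zero]
  intro k hk
  by_contra hne
  have := hf.degree i k hne
  rw [pair_dg] at this
  have h2 : k ≤ dg j i := by exact_mod_cast this
  omega

theorem val_one {f : Co → Polynomial ℂ} (hf : IsSection (al j) f) (T : ℂ) (i : Co) :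
    val (al j) f T 1 i = (f i).eval T := by
  rw [val, pair_dg, Int.toNat_natCast, fv_eval _ _ _ (sec_natDegree hf i)]

theorem val_t {f : Co → Polynomial ℂ} (T U : ℂ) :
    val (al j) f T U t = (f t).coeff 0 := by
  rw [val, pair_dg, Int.toNat_natCast]
  simp [dg, formVal]

theorem val_u {f : Co → Polynomial ℂ} (T U : ℂ) :
    val (al j) f T U u = (f u).coeff 0 := by
  rw [val, pair_dg, Int.toNat_natCast]
  simp [dg, formVal]

theorem sec_const {f : Co → Polynomial ℂ} (hf : IsSection (al j) f) :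
    (f t).coeff 0 * (f u).coeff 0 ≠ 0 := by
  intro h
  rcases mul_eq_zero.1 h with h1 | h1
  · have h2 := hf.proj 1 0
    have h3 := (hf.mem 1 0 (Or.inl one_ne_zero)).1.2.2.1
    apply h3
    rw [val_t, h1, zero_mul]
    refine ⟨rfl, ?_⟩
    rw [mul_zero, mul_one] at h2
    exact h2.symm
  · have h2 := hf.proj 0 1
    have h3 := (hf.mem 0 1 (Or.inr one_ne_zero)).1.2.2.1
    apply h3
    rw [val_u, h1, zero_mul]
    refine ⟨?_, rfl⟩
    rw [mul_zero, mul_one] at h2
    exact h2

theorem sec_id {f : Co → Polynomial ℂ} (hf : IsSection (al j) f) :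
    (f b0 * f e + f b1 * f g) * f b0 * f g * f a0 ^ 2
      + (f b0 * f e - 3 * (f b1 * f g)) * f b1 * f e * f a1 ^ 2 =
      Polynomial.C ((f t).coeff 0 * (f u).coeff 0) * f w ^ 2 := by
  apply Polynomial.funext
  intro T
  have h := (hf.mem T 1 (Or.inr one_ne_zero)).2
  rw [eval_eqn, val_t, val_u] at h
  simp only [val_one hf] at h
  simp only [Polynomial.eval_add, Polynomial.eval_mul, Polynomial.eval_sub, Polynomial.eval_pow,
    Polynomial.eval_C, Polynomial.eval_ofNat]
  linear_combination h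

/-- the invariants of the homogeneous coordinates of a section -/
noncomputable def secA (f : SecRep (al j)) : ℂ :=
  invA (f.1 b0) (f.1 b1) (f.1 a0) (f.1 w) (f.1 e) (f.1 g) (6 * j + 2) (2 * j)

noncomputable def secB (f : SecRep (al j)) : ℂ :=
  invB (f.1 b0) (f.1 b1) (f.1 a1) (f.1 w) (f.1 e) (f.1 g) (6 * j + 2) (2 * j)

theorem sec_sq (f : SecRep (al j)) : secA f ^ 2 = (3 ^ j * secB f) ^ 2 := by
  have hd := sec_natDegree f.2
  have h := inv_sq (f.1 b0) (f.1 b1) (f.1 a0) (f.1 a1) (f.1 w) (f.1 e) (f.1 g)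
    ((f.1 t).coeff 0 * (f.1 u).coeff 0) (6 * j + 2) (2 * j) (hd b0) (hd b1) (hd a0) (hd a1)
    ((hd w).trans (by simp only [dg]; omega)) (hd e) (hd g) (sec_const f.2) (sec_id f.2)
  rw [secA, secB, h, mul_pow, ← pow_mul, pow_mul (-3 : ℂ) 2 j, mul_comm j 2, pow_mul (3 : ℂ) 2 j]
  norm_num

theorem sec_pm (f : SecRep (al j)) : secA f = 3 ^ j * secB f ∨ secA f = -(3 ^ j) * secB f := by
  rcases sq_eq_sq_iff_eq_or_eq_neg.1 (sec_sq f) with h | h
  · exact Or.inl h
  · right
    rw [h]
    ring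

theorem inv_smul (f f' : SecRep (al j)) (τ : Fin 5 → ℂˣ)
    (h : ∀ i, f'.1 i = Polynomial.C (wt τ i) * f.1 i) (c : ℂ) (hf : secA f = c * secB f) :
    secA f' = c * secB f' := by
  rw [secA, secB] at hf ⊢
  simp only [h]
  rw [invA_smul _ _ _ _ _ _ _ _ _ _ _ _ _ _ (wt_be τ), invB_smul _ _ _ _ _ _ _ _ _ _ _ _ _ _
    (wt_be τ), hf, wt_ba]
  ring

theorem inv_mk {f f' : SecRep (al j)} (h : mkSec f = mkSec f') (c : ℂ)
    (hf : secA f = c * secB f) : secA f' = c * secB f' := by
  obtain ⟨τ, hτ⟩ := Quotient.exact (s := secSetoid (al j)) h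
  exact inv_smul f f' τ hτ c hf

/-- the coefficients -/
noncomputable def coef {α : Fin 5 → ℤ} (f : SecRep α) : Co × ℕ → ℂ := fun v => (f.1 v.1).coeff v.2

/-- the universal forms -/
noncomputable def univF (j : ℕ) (i : Co) : Polynomial (MvPolynomial (Co × ℕ) ℂ) :=
  ∑ k ∈ Finset.range (dg j i + 1), Polynomial.C (MvPolynomial.X (i, k)) * Polynomial.X ^ k

theorem univF_map (f : SecRep (al j)) (i : Co) :
    (univF j i).map (MvPolynomial.eval (coef f)) = f.1 i := by
  rw [univF, Polynomial.map_sum]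
  have h := (f.1 i).as_sum_range' (dg j i + 1) (Nat.lt_succ_of_le (sec_natDegree f.2 i))
  conv_rhs => rw [h]
  refine Finset.sum_congr rfl fun k _ => ?_
  rw [Polynomial.map_mul, Polynomial.map_C, Polynomial.map_pow, Polynomial.map_X,
    MvPolynomial.eval_X, ← Polynomial.C_mul_X_pow_eq_monomial]
  rfl

theorem closed_rep (c : ℂ) : IsClosed {f : SecRep (al j) | secA f = c * secB f} := by
  set UA : MvPolynomial (Co × ℕ) ℂ := invA (univF j b0) (univF j b1) (univF j a0) (univF j w)
    (univF j e) (univF j g) (6 * j + 2) (2 * j) with hUA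
  set UB : MvPolynomial (Co × ℕ) ℂ := invB (univF j b0) (univF j b1) (univF j a1) (univF j w)
    (univF j e) (univF j g) (6 * j + 2) (2 * j) with hUB
  have h1 := zar_closed (UA - MvPolynomial.C c * UB)
  have h2 : {f : SecRep (al j) | secA f = c * secB f} =
      coef ⁻¹' {x | MvPolynomial.eval x (UA - MvPolynomial.C c * UB) = 0} := by
    ext f
    simp only [Set.mem_preimage, Set.mem_ofPred_eq]
    rw [map_sub, map_mul, MvPolynomial.eval_C, hUA, hUB, invA_map, invB_map]
    simp only [univF_map]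
    rw [sub_eq_zero]
    rfl
  rw [h2]
  exact @IsClosed.preimage _ _ _ (zariski (Co × ℕ)) coef continuous_induced_dom _ h1

/-- the closed sets of sections -/
def secD (j : ℕ) (c : ℂ) : Set (Sec (al j)) :=
  {z | ∀ f : SecRep (al j), mkSec f = z → secA f = c * secB f}

theorem mem_secD {c : ℂ} (f : SecRep (al j)) : mkSec f ∈ secD j c ↔ secA f = c * secB f :=
  ⟨fun h => h f rfl, fun h _ hf' => inv_mk hf'.symm c h⟩

theorem closed_secD (c : ℂ) : IsClosed (secD j c) := by
  have hq : Topology.IsQuotientMap (mkSec : SecRep (al j) → Sec (al j)) :=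
    isQuotientMap_quotient_mk'
  rw [← hq.isClosed_preimage]
  convert closed_rep (j := j) c using 1
  ext f
  exact mem_secD f

theorem secD_cover (z : Sec (al j)) : z ∈ secD j (3 ^ j) ∪ secD j (-(3 ^ j)) := by
  obtain ⟨f, rfl⟩ := Quotient.exists_rep z
  rcases sec_pm f with h | h
  · exact Or.inl ((mem_secD f).2 h)
  · exact Or.inr ((mem_secD f).2 h)

theorem irr_secD {Z : Set (Sec (al j))} (hZ : IsIrreducible Z) :
    Z ⊆ secD j (3 ^ j) ∨ Z ⊆ secD j (-(3 ^ j)) :=
  isPreirreducible_iff_isClosed_union_isClosed.1 hZ.2 _ _ (closed_secD _) (closed_secD _)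
    (fun z _ => secD_cover z)

end Pool.Agent.Y198.DP
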