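import Mathlib
import Pool.Agent.Y198.DP.Inv
import Pool.Agent.Y198.DP.Cov

set_option autoImplicit false

namespace Pool.Agent.Y198.DP

open Co

/-! ### The special member of the family -/

theorem res_ne {f q : Polynomial ℂ} {m n : ℕ} (hm : f.natDegree = m) (hf : f.Monic)
    (hn : q.natDegree ≤ n) (h : IsCoprime f q) : Polynomial.resultant f q m n ≠ 0 := by
  obtain ⟨k, rfl⟩ := Nat.exists_eq_add_of_le hn
  rw [← hm, Polynomial.resultant_add_right_deg f q f.natDegree _ k le_rfl]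
  refine mul_ne_zero (pow_ne_zero _ ?_) (Polynomial.resultant_ne_zero _ _ h)
  rw [Polynomial.coeff_natDegree, hf.leadingCoeff]
  exact one_ne_zero

variable (j : ℕ)

open Polynomial in
theorem special : fam v0 j b0 = X ^ (2 * j) ∧ fam v0 j b1 = 1 ∧ fam v0 j e = X ∧
    fam v0 j g = 1 ∧
    fam v0 j a1 = X ^ (2 * j) * (-(X ^ (2 * j + 1)) ^ 2 + 4 * X ^ (2 * j + 1) + 4) ∧
    fam v0 j w = X ^ j * ((X ^ (2 * j + 1)) ^ 3 - (X ^ (2 * j + 1)) ^ 2 - 4 * X ^ (2 * j + 1)
      - 4) := by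
  obtain ⟨h1, h2, h3, h4, h5, h6, h7, h8, h9, h10⟩ := v0_rh
  have e0 : v0 0 = 1 := rfl
  have e1 : v0 1 = 1 := rfl
  have c4 : (C (4 : ℂ) : ℂ[X]) = 4 := map_ofNat C 4
  refine ⟨?_, ?_, rfl, rfl, ?_, ?_⟩
  · simp [fam, e0]
  · simp [fam, e1]
  · simp only [fam, h4, h5, h6, map_neg, map_one, c4]
    ring
  · simp only [fam, h7, h8, h9, h10, map_neg, map_one, c4]
    ring

open Polynomial in
theorem coprime_pow {p : ℂ[X]} (h : IsCoprime p X) (k : ℕ) : IsCoprime p (X ^ k) := h.pow_right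

open Polynomial in
theorem cop1 : IsCoprime (X ^ (2 * j + 1) + 1 : ℂ[X])
    (X ^ (2 * j) * (-(X ^ (2 * j + 1)) ^ 2 + 4 * X ^ (2 * j + 1) + 4)) := by
  apply IsCoprime.mul_right
  · apply coprime_pow
    exact ⟨1, -X ^ (2 * j), by ring⟩
  · refine ⟨-(X ^ (2 * j + 1)) + 5, -1, ?_⟩
    ring

open Polynomial in
theorem cop2 : IsCoprime (X ^ (2 * j + 1) - 3 : ℂ[X])
    (X ^ j * ((X ^ (2 * j + 1)) ^ 3 - (X ^ (2 * j + 1)) ^ 2 - 4 * X ^ (2 * j + 1) - 4)) := by
  have h3 : (C (3⁻¹ : ℂ) : ℂ[X]) * 3 = 1 := by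
    have : (3 : ℂ[X]) = C 3 := (map_ofNat C 3).symm
    rw [this, ← C_mul]
    norm_num
  have h2 : (C (2⁻¹ : ℂ) : ℂ[X]) * 2 = 1 := by
    have : (2 : ℂ[X]) = C 2 := (map_ofNat C 2).symm
    rw [this, ← C_mul]
    norm_num
  apply IsCoprime.mul_right
  · apply coprime_pow
    exact ⟨-C 3⁻¹, C 3⁻¹ * X ^ (2 * j), by linear_combination h3⟩
  · refine ⟨-C 2⁻¹ * ((X ^ (2 * j + 1)) ^ 2 + 2 * X ^ (2 * j + 1) + 2), C 2⁻¹, ?_⟩
    linear_combination h2

open Polynomial in
theorem nd1 : (X ^ (2 * j + 1) + 1 : ℂ[X]).natDegree = 2 * j + 1 ∧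
    (X ^ (2 * j + 1) + 1 : ℂ[X]).Monic := by
  have h : (X ^ (2 * j + 1) + 1 : ℂ[X]) = X ^ (2 * j + 1) + C 1 := by rw [C_1]
  rw [h]
  exact ⟨natDegree_X_pow_add_C, monic_X_pow_add_C _ (by omega)⟩

open Polynomial in
theorem nd2 : (X ^ (2 * j + 1) - 3 : ℂ[X]).natDegree = 2 * j + 1 ∧
    (X ^ (2 * j + 1) - 3 : ℂ[X]).Monic := by
  have h : (X ^ (2 * j + 1) - 3 : ℂ[X]) = X ^ (2 * j + 1) - C 3 := by
    rw [show (C (3 : ℂ) : ℂ[X]) = 3 from map_ofNat C 3]
  rw [h]
  exact ⟨natDegree_X_pow_sub_C, monic_X_pow_sub_C _ (by omega)⟩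

theorem secB_ne : secB (famRep j ⟨v0, cond_v0⟩) ≠ 0 := by
  obtain ⟨h1, h2, h3, h4, h5, h6⟩ := special j
  have hd := natDegree_fam v0 j
  have n5 := hd a1
  have n6 := hd w
  rw [secB]
  simp only [famRep]
  have e1 : fam v0 j b0 * fam v0 j e + fam v0 j b1 * fam v0 j g =
      Polynomial.X ^ (2 * j + 1) + 1 := by
    rw [h1, h2, h3, h4, pow_succ, mul_one]
  have e2 : fam v0 j b0 * fam v0 j e - 3 * (fam v0 j b1 * fam v0 j g) =
      Polynomial.X ^ (2 * j + 1) - 3 := by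
    rw [h1, h2, h3, h4, pow_succ, mul_one, mul_one]
  rw [invB, e1, e2]
  refine mul_ne_zero (mul_ne_zero ?_ ?_) ?_
  · refine res_ne (nd2 j).1 (nd2 j).2 ?_ ?_
    · refine n6.trans ?_
      simp only [dg]
      omega
    · rw [h6]
      exact cop2 j
  · refine res_ne (nd1 j).1 (nd1 j).2 ?_ ?_
    · rw [h2]
      simp
    · rw [h2]
      exact isCoprime_one_right
  · refine res_ne (nd1 j).1 (nd1 j).2 ?_ ?_
    · exact n5
    · rw [h5]
      exact cop1 j

/-! ### The involution -/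

variable {α : Fin 5 → ℤ}

/-- the involution on homogeneous coordinates of sections -/
noncomputable def sgRep (f : SecRep α) : SecRep α := ⟨_, f.2.sg⟩

theorem sgRep_sgRep (f : SecRep α) : sgRep (sgRep f) = f := by
  refine Subtype.ext ?_
  change (fun i => Polynomial.C (sg i) * (Polynomial.C (sg i) * f.1 i)) = f.1
  funext i
  rw [← mul_assoc, ← Polynomial.C_mul, sg_sq, Polynomial.C_1, one_mul]

theorem cont_sgRep : Continuous (sgRep : SecRep α → SecRep α) := by
  refine continuous_induced_rng.2 ?_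
  have h1 := zar_cont (fun q : Co × ℕ => (MvPolynomial.C (sg q.1) * MvPolynomial.X q :
    MvPolynomial (Co × ℕ) ℂ))
  have h2 : ((fun (f : SecRep α) (v : Co × ℕ) => (f.1 v.1).coeff v.2) ∘ sgRep) =
      (fun (c : Co × ℕ → ℂ) (q : Co × ℕ) => MvPolynomial.eval c
        (MvPolynomial.C (sg q.1) * MvPolynomial.X q : MvPolynomial (Co × ℕ) ℂ)) ∘
      (fun (f : SecRep α) (v : Co × ℕ) => (f.1 v.1).coeff v.2) := by
    funext f q
    simp [sgRep]
  rw [h2]
  exact @Continuous.comp _ _ _ _ (zariski (Co × ℕ)) (zariski (Co × ℕ)) _ _ h1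
    continuous_induced_dom

theorem sgRep_rel {f f' : SecRep α} (h : (secSetoid α).r f f') :
    (secSetoid α).r (sgRep f) (sgRep f') := by
  obtain ⟨τ, hτ⟩ := h
  refine ⟨τ, fun i => ?_⟩
  simp only [sgRep]
  rw [hτ i]
  ring

/-- the involution on sections -/
noncomputable def sgSec : Sec α → Sec α := Quotient.map sgRep fun _ _ h => sgRep_rel h

theorem sgSec_mk (f : SecRep α) : sgSec (mkSec f) = mkSec (sgRep f) := rfl

theorem sgSec_sgSec (z : Sec α) : sgSec (sgSec z) = z := by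
  obtain ⟨f, rfl⟩ := Quotient.exists_rep z
  exact congrArg mkSec (sgRep_sgRep f)

theorem cont_sgSec : Continuous (sgSec : Sec α → Sec α) := by
  have h : Continuous (fun f : SecRep α => mkSec (sgRep f)) :=
    continuous_quotient_mk'.comp cont_sgRep
  exact continuous_quot_lift _ h

theorem sg_irr {M : Set (Sec α)} (h : IsIrreducible M) : IsIrreducible (sgSec '' M) :=
  h.image _ cont_sgSec.continuousOn

theorem sg_img_img (M : Set (Sec α)) : sgSec '' (sgSec '' M) = M := by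
  rw [Set.image_image]
  simp [sgSec_sgSec]

theorem sg_comp {M : Set (Sec α)} (h : M ∈ irreducibleComponents (Sec α)) :
    sgSec '' M ∈ irreducibleComponents (Sec α) := by
  refine ⟨sg_irr h.1, ?_⟩
  intro N hN hMN
  have h1 : M ⊆ sgSec '' N := by
    rw [← sg_img_img M]
    exact Set.image_mono hMN
  have h2 := h.2 (sg_irr hN) h1
  change N ⊆ sgSec '' M
  rw [← sg_img_img N]
  exact Set.image_mono h2

theorem sg_dom {M : Set (Sec α)} (h : IsDominant M) : IsDominant (sgSec '' M) := by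
  let _ := zariski Co
  intro x hx
  have h1 := h (coneX_sg hx)
  have hc : Continuous (fun (y : Co → ℂ) (i : Co) => sg i * y i) := by
    have := zar_cont (fun i : Co => (MvPolynomial.C (sg i) * MvPolynomial.X i :
      MvPolynomial Co ℂ))
    simpa using this
  have h2 := image_closure_subset_closure_image hc (Set.mem_image_of_mem _ h1)
  have h3 : (fun i => sg i * (sg i * x i)) = x := by
    funext i
    rw [← mul_assoc, sg_sq, one_mul]
  have h2' := h2
  change (fun i => sg i * (sg i * x i)) ∈ _ at h2'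
  rw [h3] at h2'
  refine closure_mono ?_ h2'
  rintro _ ⟨y, ⟨f, hf, T, U, hTU, rfl⟩, rfl⟩
  refine ⟨sgRep f, ⟨mkSec f, hf, sgSec_mk f⟩, T, U, hTU, ?_⟩
  exact (fv_wt α f.1 sg T U).symm

theorem sg_secA (f : SecRep (al j)) : secA (sgRep f) = secA f := by
  rw [secA, secA]
  simp [sgRep, sg]

theorem sg_secB (f : SecRep (al j)) : secB (sgRep f) = -secB f := by
  have h := invB_smul (f.1 b0) (f.1 b1) (f.1 a1) (f.1 w) (f.1 e) (f.1 g) (6 * j + 2) (2 * j)
    (sg b0) (sg b1) (sg a1) (sg w) (sg e) (sg g) (by simp [sg])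
  rw [secB, secB]
  simp only [sgRep]
  rw [h]
  simp only [sg, reduceCtorEq, if_false, if_true, mul_one, one_mul, one_pow]
  rw [pow_succ, pow_mul]
  norm_num

/-- The special member is not in a component which is stable under the involution. -/
theorem sg_ne_comp {M : Set (Sec (al j))} (hM : IsIrreducible M) (hW : famW j ⊆ M) :
    sgSec '' M ≠ M := by
  intro heq
  set f := famRep j ⟨v0, cond_v0⟩ with hf
  have h1 : mkSec f ∈ M := hW ⟨_, rfl⟩
  have h2 : mkSec (sgRep f) ∈ M := by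
    rw [← heq]
    exact ⟨mkSec f, h1, rfl⟩
  have h3 : (3 : ℂ) ^ j ≠ 0 := pow_ne_zero _ (by norm_num)
  have h4 : secB f ≠ 0 := secB_ne j
  rcases irr_secD hM with h | h
  · have h5 := (mem_secD f).1 (h h1)
    have h6 := (mem_secD (sgRep f)).1 (h h2)
    rw [sg_secA, sg_secB] at h6
    apply mul_ne_zero h3 h4
    linear_combination (1 / 2 : ℂ) * h6 - (1 / 2 : ℂ) * h5
  · have h5 := (mem_secD f).1 (h h1)
    have h6 := (mem_secD (sgRep f)).1 (h h2)
    rw [sg_secA, sg_secB] at h6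
    apply mul_ne_zero h3 h4
    linear_combination (1 / 2 : ℂ) * h5 - (1 / 2 : ℂ) * h6

/-- There are at least two dominant families of sections of class `al j`. -/
theorem two_le : 2 ≤ numDominant (al j) := by
  obtain ⟨M, hM, hW⟩ := exists_mem_irreducibleComponents_subset_of_isIrreducible _ (irr_W j)
  have h1 : IsDominant M := dominant_of hW
  have h2 : sgSec '' M ≠ M := sg_ne_comp j hM.1 hW
  have h3 : ({sgSec '' M, M} : Set (Set (Sec (al j)))) ⊆
      {M : Set (Sec (al j)) | M ∈ irreducibleComponents (Sec (al j)) ∧ IsDominant M} := by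
    intro N hN
    rcases hN with rfl | rfl
    · exact ⟨sg_comp hM, sg_dom h1⟩
    · exact ⟨hM, h1⟩
  rw [numDominant, ← Set.encard_pair h2]
  exact Set.encard_le_encard h3

end Pool.Agent.Y198.DP
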