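import Mathlib
import Pool.Agent.Y198.DP.Two
import Pool.Agent.Y198.DP.Fib

set_option autoImplicit false

namespace Pool.Agent.Y198.DP

open Co

/-- the intersection number as a homomorphism -/
def pairHom (γ : Fin 5 → ℝ) : (Fin 5 → ℤ) →+ ℝ where
  toFun D := pair γ D
  map_zero' := by simp [pair]
  map_add' D D' := by simp [pair, add_mul, Finset.sum_add_distrib]

theorem pair_nonneg {γ : Fin 5 → ℝ} (h : ∀ i, 0 ≤ pair γ (cls i)) : γ ∈ nefCone := by
  rintro D F hF ⟨x, -, hx⟩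
  have hne : F ≠ 0 := by
    rintro rfl
    exact hx (map_zero _)
  obtain ⟨m, hm⟩ := MvPolynomial.ne_zero_iff.1 hne
  have h1 := hF hm
  rw [← h1]
  change 0 ≤ pairHom γ (Finsupp.weight cls m)
  rw [Finsupp.weight_apply, Finsupp.sum, map_sum]
  apply Finset.sum_nonneg
  intro i _
  rw [map_nsmul]
  exact nsmul_nonneg (h i) _

theorem nefCone_eq : nefCone = {γ | ∀ i, 0 ≤ pair γ (cls i)} := by
  ext γ
  constructor
  · intro h i
    obtain ⟨x, hx⟩ := exists_gen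
    refine h (cls i) (MvPolynomial.X i) (MvPolynomial.isWeightedHomogeneous_X _ _ _)
      ⟨x, hx.mem, ?_⟩
    rw [MvPolynomial.eval_X]
    exact hx.1 i
  · exact pair_nonneg

/-- The vectors parallel to the affine space `N_λ`. -/
def profileDir : Set (Fin 5 → ℝ) :=
  {v | pair v ![1, 0, 0, 0, 0] = 0 ∧ pair v (cls e) = 0 ∧ pair v (cls t) = 0 ∧
    pair v (cls g) = 0 ∧ pair v (cls u) = 0}

/-- The translate `v + Nef_λ` in `N_λ`. -/
def nefTranslate (v : Fin 5 → ℝ) : Set (Fin 5 → ℝ) := {γ | γ - v ∈ nefCone ∩ profileSpace}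

theorem al_mem {v : Fin 5 → ℝ} (hv : v ∈ profileDir) :
    ∃ j : ℕ, (fun i => (al j i : ℝ)) ∈ nefTranslate v := by
  obtain ⟨h1, h2, h3, h4, h5⟩ := hv
  simp [pair, cls, Fin.sum_univ_five] at h1 h2 h3 h4 h5
  obtain ⟨j, hj⟩ := exists_nat_ge (max (v 1) (v 2))
  have hj1 : v 1 ≤ j := (le_max_left _ _).trans hj
  have hj2 : v 2 ≤ j := (le_max_right _ _).trans hj
  have hj0 : (0 : ℝ) ≤ j := Nat.cast_nonneg j
  refine ⟨j, pair_nonneg ?_, ?_, ?_, ?_, ?_, ?_⟩
  · intro i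
    cases i <;> simp [pair, cls, al, Fin.sum_univ_five, h1, h2, h4] <;> linarith
  all_goals simp [pair, cls, al, Fin.sum_univ_five, h1, h2, h4]

end Pool.Agent.Y198.DP
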